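import Pool.Agent.Q37.SecGraph.Theta

/-!
The eleven lines of the theta graph in `ℙ⁹`.
-/

open MvPolynomial Module

namespace Q37.SecGraph

universe u

variable (K : Type u) [Field K]

/-- first spanning vector -/
def tA : Fin 11 → Fin 10 → K :=
  ![![1,0,0,0,0,0,0,0,0,0], ![0,0,1,0,0,0,0,0,0,0], ![1,0,0,0,0,0,0,0,0,0],
    ![0,0,0,0,1,0,0,0,0,0], ![0,0,0,0,0,1,0,0,0,0], ![0,1,0,0,0,0,0,0,0,0],
    ![0,0,0,0,0,0,1,0,0,0], ![0,0,0,0,0,0,0,1,0,0], ![1,1,0,0,0,0,0,0,0,0],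
    ![0,0,0,0,0,0,0,0,1,0], ![0,0,0,0,0,0,0,0,0,1]]

/-- second spanning vector -/
def tB : Fin 11 → Fin 10 → K :=
  ![![0,1,0,0,0,0,0,0,0,0], ![0,0,0,1,0,0,0,0,0,0], ![0,0,0,0,1,0,0,0,0,0],
    ![0,0,0,0,0,1,0,0,0,0], ![0,0,1,0,0,0,0,0,0,0], ![0,0,0,0,0,0,1,0,0,0],
    ![0,0,0,0,0,0,0,1,0,0], ![0,0,0,1,0,0,0,0,0,0], ![0,0,0,0,0,0,0,0,1,0],
    ![0,0,0,0,0,0,0,0,0,1], ![0,0,1,1,0,0,0,0,0,0]]

/-- labels of `tA` -/
def labA : Fin 11 → Label 10 :=
  ![.single 0, .single 2, .single 0, .single 4, .single 5, .single 1, .single 6, .single 7,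
    .diff 0 1, .single 8, .single 9]

/-- labels of `tB` -/
def labB : Fin 11 → Label 10 :=
  ![.single 1, .single 3, .single 4, .single 5, .single 2, .single 6, .single 7, .single 3,
    .single 8, .single 9, .diff 2 3]

lemma labA_vec (v : Fin 11) : (labA v).vec K = tA K v := by
  ext i
  fin_cases v <;> fin_cases i <;> simp [labA, tA, Label.vec, Pi.single_apply]

lemma labB_vec (v : Fin 11) : (labB v).vec K = tB K v := by
  ext i
  fin_cases v <;> fin_cases i <;> simp [labB, tB, Label.vec, Pi.single_apply]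

lemma lab_cases : ∀ p ∈ thetaE, ∀ v : Fin 11, (v = p.1 ∨ v = p.2) →
    thetaLab s(p.1, p.2) = labA v ∨ thetaLab s(p.1, p.2) = labB v ∨
      (v = 0 ∧ thetaLab s(p.1, p.2) = .diff 0 1) ∨ (v = 1 ∧ thetaLab s(p.1, p.2) = .diff 2 3) := by
  decide +kernel

lemma lab_existsA : ∀ v : Fin 11, ∃ p ∈ thetaE, (v = p.1 ∨ v = p.2) ∧
    thetaLab s(p.1, p.2) = labA v := by
  decide +kernel

lemma lab_existsB : ∀ v : Fin 11, ∃ p ∈ thetaE, (v = p.1 ∨ v = p.2) ∧
    thetaLab s(p.1, p.2) = labB v := by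
  decide +kernel

lemma line_eq (v : Fin 11) : line K theta thetaLab v = Submodule.span K {tA K v, tB K v} := by
  apply le_antisymm
  · unfold line
    rw [Submodule.span_le]
    rintro x ⟨e, he, hv, rfl⟩
    rw [theta_tilde, theta_edge, Finset.mem_image] at he
    obtain ⟨p, hp, rfl⟩ := he
    rw [Sym2.mem_iff] at hv
    rw [SetLike.mem_coe, Submodule.mem_span_pair]
    rcases lab_cases p hp v hv with h | h | ⟨h0, h⟩ | ⟨h0, h⟩
    · exact ⟨1, 0, by rw [h, labA_vec]; simp⟩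
    · exact ⟨0, 1, by rw [h, labB_vec]; simp⟩
    · refine ⟨1, 1, ?_⟩
      rw [h, h0]
      ext i; fin_cases i <;> simp [tA, tB, Label.vec, Pi.single_apply]
    · refine ⟨1, 1, ?_⟩
      rw [h, h0]
      ext i; fin_cases i <;> simp [tA, tB, Label.vec, Pi.single_apply]
  · rw [Submodule.span_le]
    intro x hx
    simp only [Set.mem_insert_iff, Set.mem_singleton_iff] at hx
    rcases hx with rfl | rfl
    · obtain ⟨p, hp, hv, h⟩ := lab_existsA v
      refine Submodule.subset_span ⟨s(p.1, p.2), ?_, ?_, ?_⟩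
      · rw [theta_tilde, theta_edge, Finset.mem_image]; exact ⟨p, hp, rfl⟩
      · rw [Sym2.mem_iff]; exact hv
      · rw [h, labA_vec]
    · obtain ⟨p, hp, hv, h⟩ := lab_existsB v
      refine Submodule.subset_span ⟨s(p.1, p.2), ?_, ?_, ?_⟩
      · rw [theta_tilde, theta_edge, Finset.mem_image]; exact ⟨p, hp, rfl⟩
      · rw [Sym2.mem_iff]; exact hv
      · rw [h, labB_vec]

/-- the lines -/
abbrev TL (v : Fin 11) : Submodule K (Fin 10 → K) := line K theta thetaLab v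

variable {K}

lemma mem_TL {v : Fin 11} {x : Fin 10 → K} :
    x ∈ TL K v ↔ ∃ a b : K, a • tA K v + b • tB K v = x := by
  rw [TL, line_eq, Submodule.mem_span_pair]

lemma tA_mem (v : Fin 11) : tA K v ∈ TL K v := mem_TL.2 ⟨1, 0, by simp⟩
lemma tB_mem (v : Fin 11) : tB K v ∈ TL K v := mem_TL.2 ⟨0, 1, by simp⟩

/-- coordinates isolating the coefficients -/
def cA : Fin 11 → Fin 10 := ![0, 2, 0, 4, 5, 1, 6, 7, 0, 8, 9]
/-- coordinates isolating the coefficients -/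
def cB : Fin 11 → Fin 10 := ![1, 3, 4, 5, 2, 6, 7, 3, 8, 9, 2]

lemma coefA (v : Fin 11) (a b : K) : (a • tA K v + b • tB K v) (cA v) = a := by
  fin_cases v <;> simp [tA, tB, cA]

lemma coefB (v : Fin 11) (a b : K) : (a • tA K v + b • tB K v) (cB v) = b := by
  fin_cases v <;> simp [tA, tB, cB]

lemma coef_zero {v : Fin 11} {a b : K} (h : a • tA K v + b • tB K v = 0) : a = 0 ∧ b = 0 := by
  constructor
  · rw [← coefA v a b, h]; rfl
  · rw [← coefB v a b, h]; rfl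

/-- the ten coordinates of a sum of points of the lines -/
lemma coords (a b : Fin 11 → K) :
    (∑ v, (a v • tA K v + b v • tB K v)) = ![a 0 + a 2 + a 8, b 0 + a 5 + a 8, a 1 + b 4 + b 10,
      b 1 + b 7 + b 10, b 2 + a 3, b 3 + a 4, b 5 + a 6, b 6 + a 7, b 8 + a 9, b 9 + a 10] := by
  ext i
  rw [Finset.sum_apply]
  simp only [Fin.sum_univ_succ, Fin.sum_univ_zero]
  fin_cases i <;> simp [tA, tB] <;> ring_nf <;> rfl

end Q37.SecGraph
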