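import Pool.Agent.Q37.GraphCurve.Defs

/-!
Labelled graphs, their line arrangements, secant varieties and products of linear forms.
-/

open MvPolynomial Module

open scoped LinearAlgebra.Projectivization

namespace Q37.SecGraph

universe u

/-- Labels of edges: `single i` is `e_i`, `diff j k` is `e_j - e_k`. -/
inductive Label (N : ℕ)
  | single (i : Fin N) : Label N
  | diff (j k : Fin N) : Label N

/-- The point of an edge: the basis vector `e_i` for the label `e_i`; for the label `e_j - e_k` the
vector `e_j + e_k`, on which all `x_i`, `i ≠ j, k`, and `x_j - x_k` vanish. -/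
def Label.vec (K : Type u) [Field K] {N : ℕ} : Label N → Fin N → K
  | .single i => Pi.single i 1
  | .diff j k => Pi.single j 1 + Pi.single k 1

variable {V : Type}

/-- The degree of a vertex. -/
noncomputable def deg (G : SimpleGraph V) (v : V) : ℕ := (G.neighborSet v).ncard

/-- Edges of the graph `G̃` obtained from `G` by attaching a loop to every vertex of degree one. -/
def IsTildeEdge (G : SimpleGraph V) (e : Sym2 V) : Prop :=
  e ∈ G.edgeSet ∨ ∃ v, deg G v = 1 ∧ e = s(v, v)

/-- `lab` is an admissible labelling of the edges of `G̃` by labels with indices in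
`{0, …, d - g}` (`N = d - g + 1`): at each vertex of degree three the labels are `e_j, e_k, e_j - e_k`
with `j ≠ k`; all other edges are labelled `e_i`; different edges have different labels `e_i`. -/
structure IsLabelling (G : SimpleGraph V) {N : ℕ} (lab : Sym2 V → Label N) : Prop where
  dim : (N : ℤ) = Nat.card V - Q37.GraphCurve.genus G + 1
  deg3 : ∀ v, deg G v = 3 → ∃ a b c : V, ∃ j k : Fin N, j ≠ k ∧ G.neighborSet v = {a, b, c} ∧
    lab s(v, a) = .single j ∧ lab s(v, b) = .single k ∧ lab s(v, c) = .diff j k
  rest : ∀ e, IsTildeEdge G e → (∀ v ∈ e, deg G v ≠ 3) → ∃ i, lab e = .single i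
  unused : ∀ e f i, IsTildeEdge G e → IsTildeEdge G f → lab e = .single i → lab f = .single i →
    e = f

/-- The line `L_v`, spanned by the points of the edges of `G̃` at `v`. -/
def line (K : Type u) [Field K] (G : SimpleGraph V) {N : ℕ} (lab : Sym2 V → Label N) (v : V) :
    Submodule K (Fin N → K) :=
  Submodule.span K {x | ∃ e, IsTildeEdge G e ∧ v ∈ e ∧ x = (lab e).vec K}

/-- The hypotheses on the graph: connected, triangle-free, all degrees at most three and some
degree less than three, and every path joining two different vertices of degree three has at least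
three edges. -/
structure IsAdmissible (G : SimpleGraph V) : Prop where
  conn : G.Connected
  triangleFree : G.CliqueFree 3
  deg_le : ∀ v, deg G v ≤ 3
  exists_deg_lt : ∃ v, deg G v < 3
  far : ∀ u v, u ≠ v → deg G u = 3 → deg G v = 3 → ∀ p : G.Walk u v, p.IsPath → 3 ≤ p.length

section Secant

variable {K : Type u} [Field K] {N : ℕ}

/-- The points of `P(Λ)` on the union of the lines `L v`. -/
def pointsOn (L : V → Submodule K (Fin N → K)) (Λ : Submodule K (Fin N → K)) :
    Set (ℙ K (Fin N → K)) :=
  {p | p.submodule ≤ Λ ∧ ∃ v, p.submodule ≤ L v}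

/-- The points of `P(Λ)` at which two of the lines meet and where `P(Λ)` contains a second point of
the plane spanned by the two lines: at such a node the intersection of `P(Λ)` with the union of the
two lines has length two (when `P(Λ)` contains none of the two lines). -/
def tangentPoints (L : V → Submodule K (Fin N → K)) (Λ : Submodule K (Fin N → K)) :
    Set (ℙ K (Fin N → K)) :=
  {p | p.submodule ≤ Λ ∧ ∃ u v, L u ≠ L v ∧ p.submodule ≤ L u ∧ p.submodule ≤ L v ∧
    p.submodule ≠ Λ ⊓ (L u ⊔ L v)}

/-- The length of the intersection of `P(Λ)` with the union of the lines `L v`, when it is finite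
and no three of the lines meet in a point: simple points count once, and nodes count once or,
if `P(Λ)` contains a direction of the plane of the two lines, twice. -/
noncomputable def secLength (L : V → Submodule K (Fin N → K)) (Λ : Submodule K (Fin N → K)) : ℕ :=
  (pointsOn L Λ).ncard + (tangentPoints L Λ).ncard

/-- `P(Λ)` is a `k`-plane which meets the union of the lines `L v` in a zero-dimensional scheme
of length at least `k + 1`. -/
def IsSecantPlane (L : V → Submodule K (Fin N → K)) (k : ℕ) (Λ : Submodule K (Fin N → K)) : Prop :=
  finrank K Λ = k + 1 ∧ (pointsOn L Λ).Finite ∧ k + 1 ≤ secLength L Λ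

/-- The vanishing ideal of the secant variety `Σ_k`, the closure of the union of the `k`-planes
which meet the union of the lines in a zero-dimensional scheme of length at least `k + 1`. -/
noncomputable def secantIdeal (L : V → Submodule K (Fin N → K)) (k : ℕ) :
    Ideal (MvPolynomial (Fin N) K) where
  carrier := {f | ∀ Λ, IsSecantPlane L k Λ → ∀ x ∈ Λ, eval x f = 0}
  zero_mem' := fun Λ _ x _ => by simp
  add_mem' := fun {f g} hf hg Λ hΛ x hx => by rw [map_add, hf Λ hΛ x hx, hg Λ hΛ x hx, add_zero]
  smul_mem' := fun c f hf Λ hΛ x hx => by rw [smul_eq_mul, map_mul, hf Λ hΛ x hx, mul_zero]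

/-- `f` is a product of linear forms. -/
def IsProductOfLinearForms (f : MvPolynomial (Fin N) K) : Prop :=
  ∃ (r : ℕ) (ℓ : Fin r → MvPolynomial (Fin N) K), (∀ i, (ℓ i).IsHomogeneous 1) ∧ f = ∏ i, ℓ i

end Secant

end Q37.SecGraph
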