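import Pool.Agent.Q37.SecGraph.Rel

/-!
Every plane with a finite section of length at least four is contained in a sum of four lines.
-/

open MvPolynomial Module

open scoped LinearAlgebra.Projectivization

namespace Q37.SecGraph

universe u

variable {K : Type u} [Field K]

lemma fin_line [Infinite K] {V : Type} {N : ℕ} (L : V → Submodule K (Fin N → K))
    (Λ : Submodule K (Fin N → K)) (hfin : (pointsOn L Λ).Finite) (v : V) (x z : Fin N → K)
    (hx : x ∈ Λ) (hz : z ∈ Λ) (hxL : x ∈ L v) (hzL : z ∈ L v) (hx0 : x ≠ 0) :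
    ∃ t : K, z = t • x := by
  by_contra hc
  push Not at hc
  have hne : ∀ t : K, z + t • x ≠ 0 := by
    intro t h
    apply hc (-t)
    rw [neg_smul]
    exact eq_neg_of_add_eq_zero_left h
  let φ : K → ℙ K (Fin N → K) := fun t => Projectivization.mk K (z + t • x) (hne t)
  have hinj : Function.Injective φ := by
    intro t s h
    obtain ⟨c, hcs⟩ := (Projectivization.mk_eq_mk_iff' K _ _ _ _).1 h
    rw [smul_add, smul_smul] at hcs
    -- c z + c s x = z + t x
    have h1 : (c - 1) • z = (t - c * s) • x := by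
      rw [sub_smul, sub_smul, one_smul]
      rw [sub_eq_sub_iff_add_eq_add]
      rw [hcs]; abel
    by_cases h2 : c - 1 = 0
    · have h3 : c = 1 := by linear_combination h2
      rw [h3] at h1
      simp only [sub_self, zero_smul, one_mul] at h1
      have h4 : t - s = 0 := by
        rcases smul_eq_zero.1 h1.symm with h | h
        · exact h
        · exact absurd h hx0
      linear_combination h4
    · exfalso
      apply hc ((c - 1)⁻¹ * (t - c * s))
      rw [← smul_smul, ← h1, smul_smul, inv_mul_cancel₀ h2, one_smul]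
  have hsub : Set.range φ ⊆ pointsOn L Λ := by
    rintro _ ⟨t, rfl⟩
    refine ⟨?_, v, ?_⟩
    · rw [Projectivization.submodule_mk, Submodule.span_singleton_le_iff_mem]
      exact Λ.add_mem hz (Λ.smul_mem _ hx)
    · rw [Projectivization.submodule_mk, Submodule.span_singleton_le_iff_mem]
      exact (L v).add_mem hzL ((L v).smul_mem _ hxL)
  exact Set.infinite_range_of_injective hinj (hfin.subset hsub)

lemma same_point [Infinite K] {V : Type} {N : ℕ} (L : V → Submodule K (Fin N → K))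
    (Λ : Submodule K (Fin N → K)) (hfin : (pointsOn L Λ).Finite) (v : V)
    (p q : ℙ K (Fin N → K)) (hp : p.submodule ≤ Λ) (hq : q.submodule ≤ Λ)
    (hpv : p.submodule ≤ L v) (hqv : q.submodule ≤ L v) : p = q := by
  have hp1 : p.rep ∈ p.submodule := by
    rw [Projectivization.submodule_eq]; exact Submodule.mem_span_singleton_self _
  have hq1 : q.rep ∈ q.submodule := by
    rw [Projectivization.submodule_eq]; exact Submodule.mem_span_singleton_self _
  obtain ⟨t, ht⟩ := fin_line L Λ hfin v q.rep p.rep (hq hq1) (hp hp1) (hqv hq1) (hpv hp1)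
    q.rep_nonzero
  rw [← p.mk_rep, ← q.mk_rep, Projectivization.mk_eq_mk_iff']
  exact ⟨t, ht.symm⟩

lemma exists_coefs (y : Fin 11 → Fin 10 → K) (hy : ∀ v, y v ∈ TL K v) :
    ∃ a b : Fin 11 → K, (∀ v, y v = a v • tA K v + b v • tB K v) ∧
      ∀ v, y v = 0 → a v = 0 ∧ b v = 0 := by
  choose a b hab using fun v => mem_TL.1 (hy v)
  refine ⟨a, b, fun v => (hab v).symm, fun v hv => ?_⟩
  exact coef_zero (by rw [hab v, hv])

lemma vanish' (y : Fin 11 → Fin 10 → K) (hy : ∀ v, y v ∈ TL K v) (T : Finset (Fin 11))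
    (hT : T.card ≤ 4) (h : ∀ v, v ∉ T → y v = 0) : eval (∑ v, y v) (f0 K) = 0 := by
  obtain ⟨a, b, h1, h2⟩ := exists_coefs y hy
  rw [Finset.sum_congr rfl fun v _ => h1 v]
  exact vanish a b T hT fun v hv => h2 v (h v hv)

lemma rel_of_sum' (y : Fin 11 → Fin 10 → K) (hy : ∀ v, y v ∈ TL K v) (h : ∑ v, y v = 0) :
    ∃ c, Rel y c := by
  obtain ⟨a, b, h1, h2⟩ := exists_coefs y hy
  have hy' : y = fun v => a v • tA K v + b v • tB K v := funext h1
  refine ⟨cf a b, ?_⟩
  rw [hy']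
  apply rel_of_sum
  rw [← h]
  exact Finset.sum_congr rfl fun v _ => (h1 v).symm

lemma dec_edge : ∀ u v : Fin 11, ∀ j : Fin 3, ∀ i i' : Fin 4,
    (srcv j i = u ∨ srcv j i = v) → (tgtv j i = u ∨ tgtv j i = v) →
    (srcv j i' = u ∨ srcv j i' = v) → (tgtv j i' = u ∨ tgtv j i' = v) → i = i' := by
  decide +kernel

lemma dec_three : ∀ u v : Fin 11, (∀ j, tgtv j 0 = u ∨ tgtv j 0 = v) → False := by
  decide +kernel

lemma dec_three' : ∀ u v : Fin 11, (∀ j, tgtv j 2 = u ∨ tgtv j 2 = v) → False := by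
  decide +kernel

lemma src_ne_tgt : ∀ (j : Fin 3) (i : Fin 4), srcv j i ≠ tgtv j i := by decide

/-- Two of the lines meet only in a node. -/
lemma meet {u v : Fin 11} (huv : u ≠ v) {z : Fin 10 → K} (hz : z ≠ 0) (hu : z ∈ TL K u)
    (hv : z ∈ TL K v) : ∃ j i, ((srcv j i = u ∧ tgtv j i = v) ∨ (srcv j i = v ∧ tgtv j i = u)) ∧
      ∃ t : K, t ≠ 0 ∧ z = t • nd K j i := by
  set y : Fin 11 → Fin 10 → K := fun w => if w = u then z else if w = v then -z else 0 with hy
  have hyu : y u = z := by simp [hy]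
  have hyv : y v = -z := by simp [hy, huv.symm]
  have hy0 : ∀ w, y w ≠ 0 → w = u ∨ w = v := by
    intro w hw
    by_contra hc
    push Not at hc
    exact hw (by simp [hy, hc.1, hc.2])
  have hyL : ∀ w, y w ∈ TL K w := by
    intro w
    by_cases h1 : w = u
    · rw [h1, hyu]; exact hu
    · by_cases h2 : w = v
      · rw [h2, hyv]; exact (TL K v).neg_mem hv
      · simp [hy, h1, h2]
  have hsum : ∑ w, y w = 0 := by
    rw [← Finset.add_sum_erase Finset.univ y (Finset.mem_univ u),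
      ← Finset.add_sum_erase (Finset.univ.erase u) y
        (Finset.mem_erase.2 ⟨huv.symm, Finset.mem_univ v⟩), hyu, hyv]
    rw [Finset.sum_eq_zero]
    · abel
    · intro w hw
      rw [Finset.mem_erase, Finset.mem_erase] at hw
      simp [hy, hw.1, hw.2.1]
  obtain ⟨c, R⟩ := rel_of_sum' y hyL hsum
  -- every edge with nonzero coefficient joins `u` and `v`
  have hE : ∀ j i, c j i ≠ 0 → (srcv j i = u ∨ srcv j i = v) ∧ (tgtv j i = u ∨ tgtv j i = v) := by
    intro j i hc
    obtain ⟨s0, s1, s2, s3, s4⟩ := st j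
    constructor
    · apply hy0
      fin_cases i
      · show y (srcv j 0) ≠ 0
        rw [s0]
        intro h0
        have h1 := rel_y0 R hc h0
        exact dec_three u v fun j' => hy0 _ (rel_p0 R (Or.inl (h1 j')))
      · show y (srcv j 1) ≠ 0
        rw [s1]; exact rel_p0 R (Or.inr hc)
      · show y (srcv j 2) ≠ 0
        rw [s2]; exact rel_p1 R (Or.inr hc)
      · show y (srcv j 3) ≠ 0
        rw [s3]; exact rel_p2 R (Or.inr hc)
    · apply hy0
      fin_cases i
      · exact rel_p0 R (Or.inl hc)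
      · exact rel_p1 R (Or.inl hc)
      · exact rel_p2 R (Or.inl hc)
      · show y (tgtv j 3) ≠ 0
        rw [s4]
        intro h0
        have h1 := rel_y1 R hc h0
        exact dec_three' u v fun j' => hy0 _ (rel_p2 R (Or.inr (h1 j')))
  have hex : ∃ j i, c j i ≠ 0 := by
    by_contra hc
    push Not at hc
    apply hz
    rw [← hyu]
    have hcs : ∀ v : Fin 11, v = 0 ∨ v = 1 ∨ ∃ j, v = tgtv j 0 ∨ v = tgtv j 1 ∨ v = tgtv j 2 := by
      decide
    rcases hcs u with h | h | ⟨j, h | h | h⟩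
    · rw [h, R.v0]; simp [hc]
    · rw [h, R.v1]; simp [hc]
    · rw [h, R.p0]; simp [hc]
    · rw [h, R.p1]; simp [hc]
    · rw [h, R.p2]; simp [hc]
  obtain ⟨j, i, hc⟩ := hex
  obtain ⟨h1, h2⟩ := hE j i hc
  have h12 := src_ne_tgt j i
  refine ⟨j, i, ?_, ?_⟩
  · rcases h1 with h1 | h1 <;> rcases h2 with h2 | h2
    · exact absurd (h1.trans h2.symm) h12
    · exact Or.inl ⟨h1, h2⟩
    · exact Or.inr ⟨h1, h2⟩
    · exact absurd (h1.trans h2.symm) h12
  · have hother : ∀ i', i' ≠ i → c j i' = 0 := by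
      intro i' hi'
      by_contra hc'
      obtain ⟨h3, h4⟩ := hE j i' hc'
      exact hi' (dec_edge u v j i' i h3 h4 h1 h2)
    have hfin : ∀ w, (w = u ∨ w = v) → ∀ t : K, t ≠ 0 → y w = t • nd K j i →
        ∃ t : K, t ≠ 0 ∧ z = t • nd K j i := by
      rintro w (rfl | rfl) t ht h
      · exact ⟨t, ht, by rw [← hyu, h]⟩
      · refine ⟨-t, neg_ne_zero.2 ht, ?_⟩
        rw [neg_smul, ← h, hyv, neg_neg]
    obtain ⟨s0, s1, s2, s3, s4⟩ := st j
    fin_cases i
    · refine hfin (tgtv j 0) h2 (c j 0) hc ?_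
      rw [R.p0, hother 1 (by decide), zero_smul, sub_zero]; rfl
    · refine hfin (tgtv j 1) h2 (c j 1) hc ?_
      rw [R.p1, hother 2 (by decide), zero_smul, sub_zero]; rfl
    · refine hfin (tgtv j 2) h2 (c j 2) hc ?_
      rw [R.p2, hother 3 (by decide), zero_smul, sub_zero]; rfl
    · refine hfin (tgtv j 2) (s3 ▸ h1) (-c j 3) (neg_ne_zero.2 hc) ?_
      rw [R.p2, hother 2 (by decide), zero_smul, zero_sub, neg_smul]; rfl

lemma tangent_data {Λ : Submodule K (Fin 10 → K)} {p : ℙ K (Fin 10 → K)}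
    (hp : p ∈ tangentPoints (TL K) Λ) :
    ∃ j i, nd K j i ∈ p.submodule ∧ ∃ y1 ∈ TL K (srcv j i), ∃ y2 ∈ TL K (tgtv j i),
      y1 + y2 ∈ Λ ∧ y1 + y2 ∉ p.submodule := by
  obtain ⟨hpΛ, u, v, huv, hpu, hpv, hne⟩ := hp
  have hp1 : p.rep ∈ p.submodule := by
    rw [Projectivization.submodule_eq]; exact Submodule.mem_span_singleton_self _
  obtain ⟨j, i, hij, t, ht, hz⟩ := meet (fun h => huv (by rw [h])) p.rep_nonzero (hpu hp1)
    (hpv hp1)
  have hnd : nd K j i ∈ p.submodule := by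
    have := p.submodule.smul_mem t⁻¹ hp1
    rwa [hz, smul_smul, inv_mul_cancel₀ ht, one_smul] at this
  refine ⟨j, i, hnd, ?_⟩
  have hne' : p.submodule ≠ Λ ⊓ (TL K (srcv j i) ⊔ TL K (tgtv j i)) := by
    rcases hij with ⟨h1, h2⟩ | ⟨h1, h2⟩
    · rw [h1, h2]; exact hne
    · rw [h1, h2, sup_comm]; exact hne
  have hle : p.submodule ≤ Λ ⊓ (TL K (srcv j i) ⊔ TL K (tgtv j i)) := by
    rcases hij with ⟨h1, h2⟩ | ⟨h1, h2⟩
    · rw [h1, h2]; exact le_inf hpΛ (hpu.trans le_sup_left)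
    · rw [h1, h2]; exact le_inf hpΛ (hpv.trans le_sup_left)
  obtain ⟨y, hy, hy'⟩ := SetLike.exists_of_lt (lt_of_le_of_ne hle hne')
  obtain ⟨y1, hy1, y2, hy2, rfl⟩ := Submodule.mem_sup.1 hy.2
  exact ⟨y1, hy1, y2, hy2, hy.1, hy'⟩

end Q37.SecGraph
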