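import Pool.Agent.Q37.SecGraph.Sec

/-!
Products of linear forms vanishing on all secant three-planes.
-/

open MvPolynomial Module

open scoped LinearAlgebra.Projectivization

set_option linter.unusedSimpArgs false

namespace Q37.SecGraph

universe u

variable {K : Type u} [Field K]

lemma secant_of (w : Fin 4 → Fin 10 → K) (vv : Fin 4 → Fin 11) (hw : ∀ i, w i ∈ TL K (vv i))
    (hvv : ∀ i j, vv i = vv j → i = j) (h0 : ∀ i, vv i ≠ 0)
    (hq : ∀ v (c : Fin 4 → K), ∑ i, c i • w i ∈ TL K v → ∀ i, vv i ≠ v → c i = 0) :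
    IsSecantPlane (TL K) 3 (Submodule.span K (Set.range w)) := by
  have hli : LinearIndependent K w := by
    rw [Fintype.linearIndependent_iff]
    intro c hc i
    exact hq 0 c (by rw [hc]; exact Submodule.zero_mem _) i (h0 i)
  have hne : ∀ i, w i ≠ 0 := fun i => hli.ne_zero i
  let φ : Fin 4 → ℙ K (Fin 10 → K) := fun i => Projectivization.mk K (w i) (hne i)
  have hφ : Function.Injective φ := by
    intro i j hij
    obtain ⟨a, ha⟩ := (Projectivization.mk_eq_mk_iff' K _ _ _ _).1 hij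
    -- a • w j = w i
    by_contra hne'
    have h1 : w i ∈ TL K (vv j) := by rw [← ha]; exact Submodule.smul_mem _ _ (hw j)
    have h2 := hq (vv j) (fun k => if k = i then 1 else 0) (by simpa using h1) i
      (fun h => hne' (hvv _ _ h))
    simp at h2
  have hsub : pointsOn (TL K) (Submodule.span K (Set.range w)) ⊆ Set.range φ := by
    rintro p ⟨hp, v, hv⟩
    have hr := hp (rep_mem p)
    rw [Submodule.mem_span_range_iff_exists_fun] at hr
    obtain ⟨c, hc⟩ := hr
    have h1 := hq v c (by rw [hc]; exact hv (rep_mem p))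
    -- some coefficient is nonzero
    have h2 : ∃ i, c i ≠ 0 := by
      by_contra h
      push Not at h
      apply p.rep_nonzero
      rw [← hc]
      exact Finset.sum_eq_zero fun i _ => by rw [h i, zero_smul]
    obtain ⟨i, hi⟩ := h2
    refine ⟨i, ?_⟩
    have h3 : vv i = v := by
      by_contra h
      exact hi (h1 i h)
    have h4 : p.rep = c i • w i := by
      rw [← hc]
      refine Finset.sum_eq_single i (fun j _ hj => ?_) (fun h => absurd (Finset.mem_univ i) h)
      rw [h1 j (fun h => hj (hvv _ _ (h.trans h3.symm))), zero_smul]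
    rw [← p.mk_rep]
    show Projectivization.mk K (w i) (hne i) = _
    rw [Projectivization.mk_eq_mk_iff']
    exact ⟨(c i)⁻¹, by rw [h4, smul_smul, inv_mul_cancel₀ hi, one_smul]⟩
  have hsup : Set.range φ ⊆ pointsOn (TL K) (Submodule.span K (Set.range w)) := by
    rintro _ ⟨i, rfl⟩
    refine ⟨?_, vv i, ?_⟩
    · rw [Projectivization.submodule_mk, Submodule.span_singleton_le_iff_mem]
      exact Submodule.subset_span ⟨i, rfl⟩
    · rw [Projectivization.submodule_mk, Submodule.span_singleton_le_iff_mem]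
      exact hw i
  have heq := hsub.antisymm hsup
  refine ⟨?_, ?_, ?_⟩
  · rw [finrank_span_eq_card hli, Fintype.card_fin]
  · rw [heq]; exact Set.finite_range φ
  · unfold secLength
    rw [heq, ← Set.image_univ, Set.ncard_image_of_injective _ hφ, Set.ncard_univ, Nat.card_fin]
    omega

variable (K) in
/-- the three substitutions -/
def sg {R : Type*} [Zero R] : Fin 3 → (Fin 10 → R) → (Fin 10 → R) :=
  ![fun x => ![x 0, 0, x 2, 0, x 4, x 5, x 6, x 7, x 8, x 9],
    fun x => ![0, x 1, 0, x 3, x 4, x 5, x 6, x 7, x 8, x 9],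
    fun x => ![x 0, x 0, x 2, x 2, x 4, x 5, x 6, x 7, x 8, x 9]]

/-- spanning vectors, first family -/
def w0 (x : Fin 10 → K) : Fin 4 → Fin 10 → K :=
  ![![x 0, 0, 0, 0, x 4, 0, 0, 0, 0, 0], ![0, 0, x 2, 0, 0, x 5, 0, 0, 0, 0],
    ![0, 0, 0, 0, 0, 0, x 6, x 7, 0, 0], ![0, 0, 0, 0, 0, 0, 0, 0, x 8, x 9]]
/-- spanning vectors, second family -/
def w1 (x : Fin 10 → K) : Fin 4 → Fin 10 → K :=
  ![![0, x 1, 0, 0, 0, 0, x 6, 0, 0, 0], ![0, 0, 0, x 3, 0, 0, 0, x 7, 0, 0],
    ![0, 0, 0, 0, x 4, x 5, 0, 0, 0, 0], ![0, 0, 0, 0, 0, 0, 0, 0, x 8, x 9]]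
/-- spanning vectors, third family -/
def w2 (x : Fin 10 → K) : Fin 4 → Fin 10 → K :=
  ![![x 0, x 0, 0, 0, 0, 0, 0, 0, x 8, 0], ![0, 0, x 2, x 2, 0, 0, 0, 0, 0, x 9],
    ![0, 0, 0, 0, x 4, x 5, 0, 0, 0, 0], ![0, 0, 0, 0, 0, 0, x 6, x 7, 0, 0]]

lemma sec0 (x : Fin 10 → K) (hx : ∀ i, x i ≠ 0) :
    IsSecantPlane (TL K) 3 (Submodule.span K (Set.range (w0 x))) := by
  refine secant_of (w0 x) ![2, 4, 6, 9] ?_ (by decide) (by decide) ?_
  · intro i
    rw [mem_TL]
    fin_cases i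
    · exact ⟨x 0, x 4, by ext i; fin_cases i <;> simp [tA, tB, w0]⟩
    · exact ⟨x 5, x 2, by ext i; fin_cases i <;> simp [tA, tB, w0]⟩
    · exact ⟨x 6, x 7, by ext i; fin_cases i <;> simp [tA, tB, w0]⟩
    · exact ⟨x 8, x 9, by ext i; fin_cases i <;> simp [tA, tB, w0]⟩
  · intro v c h i hi
    rw [mem_TL] at h
    obtain ⟨a, b, h⟩ := h
    have h' := congrFun h (![if v = 0 ∨ v = 8 then 4 else 0, if v = 3 then 2 else 5,
      if v = 5 then 7 else 6, if v = 8 then 9 else 8] i)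
    revert hi h'
    fin_cases v <;> fin_cases i <;> simp [tA, tB, w0, Fin.sum_univ_succ, hx]

lemma sec1 (x : Fin 10 → K) (hx : ∀ i, x i ≠ 0) :
    IsSecantPlane (TL K) 3 (Submodule.span K (Set.range (w1 x))) := by
  refine secant_of (w1 x) ![5, 7, 3, 9] ?_ (by decide) (by decide) ?_
  · intro i
    rw [mem_TL]
    fin_cases i
    · exact ⟨x 1, x 6, by ext i; fin_cases i <;> simp [tA, tB, w1]⟩
    · exact ⟨x 7, x 3, by ext i; fin_cases i <;> simp [tA, tB, w1]⟩
    · exact ⟨x 4, x 5, by ext i; fin_cases i <;> simp [tA, tB, w1]⟩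
    · exact ⟨x 8, x 9, by ext i; fin_cases i <;> simp [tA, tB, w1]⟩
  · intro v c h i hi
    rw [mem_TL] at h
    obtain ⟨a, b, h⟩ := h
    have h' := congrFun h (![if v = 6 then 1 else 6, if v = 6 then 3 else 7,
      if v = 2 then 5 else 4, if v = 8 then 9 else 8] i)
    revert hi h'
    fin_cases v <;> fin_cases i <;> simp [tA, tB, w1, Fin.sum_univ_succ, hx]

lemma sec2 (x : Fin 10 → K) (hx : ∀ i, x i ≠ 0) :
    IsSecantPlane (TL K) 3 (Submodule.span K (Set.range (w2 x))) := by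
  refine secant_of (w2 x) ![8, 10, 3, 6] ?_ (by decide) (by decide) ?_
  · intro i
    rw [mem_TL]
    fin_cases i
    · exact ⟨x 0, x 8, by ext i; fin_cases i <;> simp [tA, tB, w2]⟩
    · exact ⟨x 9, x 2, by ext i; fin_cases i <;> simp [tA, tB, w2]⟩
    · exact ⟨x 4, x 5, by ext i; fin_cases i <;> simp [tA, tB, w2]⟩
    · exact ⟨x 6, x 7, by ext i; fin_cases i <;> simp [tA, tB, w2]⟩
  · intro v c h i hi
    rw [mem_TL] at h
    obtain ⟨a, b, h⟩ := h
    have h' := congrFun h (![if v = 9 then 0 else 8, if v = 9 then 2 else 9,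
      if v = 2 then 5 else 4, if v = 5 then 7 else 6] i)
    revert hi h'
    fin_cases v <;> fin_cases i <;> simp [tA, tB, w2, Fin.sum_univ_succ, hx]

lemma sum_span (w : Fin 4 → Fin 10 → K) : ∑ i, w i ∈ Submodule.span K (Set.range w) :=
  Submodule.sum_mem _ fun i _ => Submodule.subset_span ⟨i, rfl⟩

lemma eval_sg {f : MvPolynomial (Fin 10) K} (hf : f ∈ secantIdeal (TL K) 3) (j : Fin 3)
    (x : Fin 10 → K) (hx : ∀ i, x i ≠ 0) : eval (sg j x) f = 0 := by
  fin_cases j
  · have := hf _ (sec0 x hx) _ (sum_span (w0 x))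
    have e : sg 0 x = ∑ i, w0 x i := by
      ext i; fin_cases i <;> simp [sg, w0, Fin.sum_univ_succ]
    rw [← e] at this
    exact this
  · have := hf _ (sec1 x hx) _ (sum_span (w1 x))
    have e : sg 1 x = ∑ i, w1 x i := by
      ext i; fin_cases i <;> simp [sg, w1, Fin.sum_univ_succ]
    rw [← e] at this
    exact this
  · have := hf _ (sec2 x hx) _ (sum_span (w2 x))
    have e : sg 2 x = ∑ i, w2 x i := by
      ext i; fin_cases i <;> simp [sg, w2, Fin.sum_univ_succ]
    rw [← e] at this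
    exact this

variable (K) in
/-- the substitution homomorphisms -/
noncomputable def rho (j : Fin 3) : MvPolynomial (Fin 10) K →ₐ[K] MvPolynomial (Fin 10) K :=
  aeval (sg j X)

lemma eval_rho (j : Fin 3) (f : MvPolynomial (Fin 10) K) (x : Fin 10 → K) :
    eval x (rho K j f) = eval (sg j x) f := by
  have h : ((eval x).comp (rho K j).toRingHom) = eval (sg j x) := by
    apply MvPolynomial.ringHom_ext
    · intro r
      simp [rho]
    · intro i
      fin_cases j <;> fin_cases i <;> simp [rho, sg]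
  exact congrArg (fun g => g f) h

lemma zero_of_eval [Infinite K] (g : MvPolynomial (Fin 10) K)
    (h : ∀ x : Fin 10 → K, (∀ i, x i ≠ 0) → eval x g = 0) : g = 0 := by
  have h1 : g * ∏ i, X i = 0 := by
    apply MvPolynomial.funext
    intro x
    rw [map_mul, map_prod, map_zero]
    by_cases hx : ∀ i, x i ≠ 0
    · rw [h x hx, zero_mul]
    · push Not at hx
      obtain ⟨i, hi⟩ := hx
      rw [Finset.prod_eq_zero (Finset.mem_univ i) (by simpa using hi), mul_zero]
  rcases mul_eq_zero.1 h1 with h2 | h2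
  · exact h2
  · exfalso
    rw [Finset.prod_eq_zero_iff] at h2
    obtain ⟨i, _, hi⟩ := h2
    exact X_ne_zero i hi

lemma rho_zero [Infinite K] {f : MvPolynomial (Fin 10) K} (hf : f ∈ secantIdeal (TL K) 3)
    (j : Fin 3) : rho K j f = 0 :=
  zero_of_eval _ fun x hx => by rw [eval_rho, eval_sg hf j x hx]

lemma linear_form {l : MvPolynomial (Fin 10) K} (hl : l.IsHomogeneous 1) :
    ∃ c : Fin 10 → K, l = ∑ i, c i • X i := by
  have : l ∈ homogeneousSubmodule (Fin 10) K 1 := hl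
  rw [homogeneousSubmodule_one_eq_span_X, Submodule.mem_span_range_iff_exists_fun] at this
  obtain ⟨c, hc⟩ := this
  exact ⟨c, hc.symm⟩

/-- consequences of vanishing for the coefficients -/
lemma coef_rho (c : Fin 10 → K) (j : Fin 3) (h : rho K j (∑ i, c i • X i) = 0) :
    (c 4 = 0 ∧ c 5 = 0 ∧ c 6 = 0 ∧ c 7 = 0 ∧ c 8 = 0 ∧ c 9 = 0) ∧
    (j = 0 → c 0 = 0 ∧ c 2 = 0) ∧ (j = 1 → c 1 = 0 ∧ c 3 = 0) ∧
    (j = 2 → c 0 + c 1 = 0 ∧ c 2 + c 3 = 0) := by
  have key : ∀ x : Fin 10 → K, ∑ i, c i * sg j x i = 0 := by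
    intro x
    have h1 := eval_rho j (∑ i, c i • X i) x
    rw [h, map_zero] at h1
    rw [h1, map_sum]
    refine Finset.sum_congr rfl fun i _ => ?_
    rw [smul_eval, eval_X]
  have k4 := key (Pi.single 4 1)
  have k5 := key (Pi.single 5 1)
  have k6 := key (Pi.single 6 1)
  have k7 := key (Pi.single 7 1)
  have k8 := key (Pi.single 8 1)
  have k9 := key (Pi.single 9 1)
  have k0 := key (Pi.single 0 1)
  have k1 := key (Pi.single 1 1)
  have k2 := key (Pi.single 2 1)
  have k3 := key (Pi.single 3 1)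
  fin_cases j <;>
    simp [sg, Fin.sum_univ_succ, Pi.single_apply] at k0 k1 k2 k3 k4 k5 k6 k7 k8 k9 ⊢ <;>
    exact ⟨⟨k4, k5, k6, k7, k8, k9⟩, by tauto⟩

lemma coef_all (c : Fin 10 → K) (j k : Fin 3) (hjk : j ≠ k)
    (h : rho K j (∑ i, c i • X i) = 0) (h' : rho K k (∑ i, c i • X i) = 0) : ∀ i, c i = 0 := by
  obtain ⟨⟨g4, g5, g6, g7, g8, g9⟩, a0, a1, a2⟩ := coef_rho c j h
  obtain ⟨-, b0, b1, b2⟩ := coef_rho c k h'
  have hcs : ∀ j : Fin 3, j = 0 ∨ j = 1 ∨ j = 2 := by decide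
  have hj := hcs j
  have hk := hcs k
  have key : c 0 = 0 ∧ c 1 = 0 ∧ c 2 = 0 ∧ c 3 = 0 := by
    rcases hj with rfl | rfl | rfl <;> rcases hk with rfl | rfl | rfl
    · exact absurd rfl hjk
    · exact ⟨(a0 rfl).1, (b1 rfl).1, (a0 rfl).2, (b1 rfl).2⟩
    · have e1 := a0 rfl
      have e2 := b2 rfl
      exact ⟨e1.1, by simpa [e1.1] using e2.1, e1.2, by simpa [e1.2] using e2.2⟩
    · exact ⟨(b0 rfl).1, (a1 rfl).1, (b0 rfl).2, (a1 rfl).2⟩
    · exact absurd rfl hjk
    · have e1 := a1 rfl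
      have e2 := b2 rfl
      exact ⟨by simpa [e1.1] using e2.1, e1.1, by simpa [e1.2] using e2.2, e1.2⟩
    · have e1 := b0 rfl
      have e2 := a2 rfl
      exact ⟨e1.1, by simpa [e1.1] using e2.1, e1.2, by simpa [e1.2] using e2.2⟩
    · have e1 := b1 rfl
      have e2 := a2 rfl
      exact ⟨by simpa [e1.1] using e2.1, e1.1, by simpa [e1.2] using e2.2, e1.2⟩
    · exact absurd rfl hjk
  intro i
  fin_cases i
  · exact key.1
  · exact key.2.1
  · exact key.2.2.1
  · exact key.2.2.2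
  · exact g4
  · exact g5
  · exact g6
  · exact g7
  · exact g8
  · exact g9

variable (K) in
/-- the ideal of the four coordinates at the vertices of degree three -/
noncomputable def qq : Ideal (MvPolynomial (Fin 10) K) := Ideal.span {X 0, X 1, X 2, X 3}

lemma mem_qq (c : Fin 10 → K) (j : Fin 3) (h : rho K j (∑ i, c i • X i) = 0) :
    (∑ i, c i • X i : MvPolynomial (Fin 10) K) ∈ qq K := by
  obtain ⟨⟨g4, g5, g6, g7, g8, g9⟩, -⟩ := coef_rho c j h
  have e : (∑ i, c i • X i : MvPolynomial (Fin 10) K) =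
      C (c 0) * X 0 + C (c 1) * X 1 + C (c 2) * X 2 + C (c 3) * X 3 := by
    simp only [Fin.sum_univ_succ, Fin.sum_univ_zero]
    simp [g4, g5, g6, g7, g8, g9, smul_eq_C_mul]
    ring
  rw [e]
  have h0 : (X 0 : MvPolynomial (Fin 10) K) ∈ qq K := Ideal.subset_span (by simp)
  have h1 : (X 1 : MvPolynomial (Fin 10) K) ∈ qq K := Ideal.subset_span (by simp)
  have h2 : (X 2 : MvPolynomial (Fin 10) K) ∈ qq K := Ideal.subset_span (by simp)
  have h3 : (X 3 : MvPolynomial (Fin 10) K) ∈ qq K := Ideal.subset_span (by simp)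
  exact add_mem (add_mem (add_mem (Ideal.mul_mem_left _ _ h0) (Ideal.mul_mem_left _ _ h1))
    (Ideal.mul_mem_left _ _ h2)) (Ideal.mul_mem_left _ _ h3)

lemma prod_mem_cube {A : Type*} [CommRing A] (q : Ideal A) {r : ℕ} (l : Fin r → A) (i j k : Fin r)
    (hij : i ≠ j) (hik : i ≠ k) (hjk : j ≠ k) (hi : l i ∈ q) (hj : l j ∈ q) (hk : l k ∈ q) :
    ∏ m, l m ∈ q ^ 3 := by
  rw [← Finset.mul_prod_erase Finset.univ l (Finset.mem_univ i),
    ← Finset.mul_prod_erase (Finset.univ.erase i) l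
      (Finset.mem_erase.2 ⟨hij.symm, Finset.mem_univ j⟩),
    ← Finset.mul_prod_erase ((Finset.univ.erase i).erase j) l
      (Finset.mem_erase.2 ⟨hjk.symm, Finset.mem_erase.2 ⟨hik.symm, Finset.mem_univ k⟩⟩)]
  rw [← mul_assoc, ← mul_assoc]
  apply Ideal.mul_mem_right
  rw [pow_succ, pow_two]
  exact Ideal.mul_mem_mul (Ideal.mul_mem_mul hi hj) hk

/-- Every product of linear forms vanishing on all secant three-planes is in the cube of `qq`. -/
lemma product_mem [Infinite K] {f : MvPolynomial (Fin 10) K} (hf : f ∈ secantIdeal (TL K) 3)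
    (hp : IsProductOfLinearForms f) : f ∈ qq K ^ 3 := by
  obtain ⟨r, l, hl, rfl⟩ := hp
  choose c hc using fun i => linear_form (hl i)
  have h : ∀ j, ∃ i, rho K j (l i) = 0 := by
    intro j
    have := rho_zero hf j
    rw [map_prod, Finset.prod_eq_zero_iff] at this
    obtain ⟨i, _, hi⟩ := this
    exact ⟨i, hi⟩
  choose m hm using h
  have hq : ∀ j, l (m j) ∈ qq K := by
    intro j
    have := hm j
    rw [hc] at this ⊢
    exact mem_qq _ j this
  by_cases hinj : ∃ j k, j ≠ k ∧ m j = m k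
  · obtain ⟨j, k, hjk, hmm⟩ := hinj
    have h1 := hm j
    have h2 := hm k
    rw [← hmm] at h2
    rw [hc] at h1 h2
    have h3 := coef_all _ j k hjk h1 h2
    have h4 : l (m j) = 0 := by
      rw [hc]
      exact Finset.sum_eq_zero fun i _ => by rw [h3 i, zero_smul]
    rw [Finset.prod_eq_zero (Finset.mem_univ (m j)) h4]
    exact Ideal.zero_mem _
  · push Not at hinj
    exact prod_mem_cube _ _ (m 0) (m 1) (m 2) (hinj 0 1 (by decide)) (hinj 0 2 (by decide))
      (hinj 1 2 (by decide)) (hq 0) (hq 1) (hq 2)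

variable (K) in
lemma f0_not_mem : f0 K ∉ qq K ^ 3 := by
  intro h
  let φ : MvPolynomial (Fin 10) K →ₐ[K] Polynomial K :=
    aeval ![Polynomial.X, 0, 0, Polynomial.X, 1, 1, 1, 1, 1, 1]
  have h1 : φ (f0 K) = Polynomial.X ^ 2 := by
    simp [φ, f0]
    ring
  have h2 : (qq K).map φ ≤ Ideal.span {Polynomial.X} := by
    rw [qq, Ideal.map_span, Ideal.span_le]
    rintro _ ⟨y, hy, rfl⟩
    simp only [Set.mem_insert_iff, Set.mem_singleton_iff] at hy
    rw [SetLike.mem_coe]
    rcases hy with rfl | rfl | rfl | rfl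
    · simp [φ, Ideal.mem_span_singleton]
    · simp [φ]
    · simp [φ]
    · simp [φ, Ideal.mem_span_singleton]
  have h3 : φ (f0 K) ∈ (Ideal.span {(Polynomial.X : Polynomial K)}) ^ 3 := by
    have := Ideal.mem_map_of_mem φ h
    rw [Ideal.map_pow] at this
    exact Ideal.pow_right_mono h2 3 this
  rw [h1, Ideal.span_singleton_pow, Ideal.mem_span_singleton, Polynomial.X_pow_dvd_iff] at h3
  have := h3 2 (by norm_num)
  simp at this

variable (K) in
/-- The ideal of the third secant variety of the theta graph curve is not generated by products of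
linear forms. -/
theorem not_generated [Infinite K] : ¬ ∃ P : Set (MvPolynomial (Fin 10) K),
    (∀ f ∈ P, IsProductOfLinearForms f) ∧ Ideal.span P = secantIdeal (TL K) 3 := by
  rintro ⟨P, hP, hspan⟩
  apply f0_not_mem K
  have h1 : secantIdeal (TL K) 3 ≤ qq K ^ 3 := by
    rw [← hspan, Ideal.span_le]
    intro f hf
    exact product_mem (hspan ▸ Ideal.subset_span hf) (hP f hf)
  exact h1 f0_mem

end Q37.SecGraph
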