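import Pool.Agent.Q37.SecGraph.Vanish

/-!
Linear relations between points of at most four of the lines.
-/

open MvPolynomial Module

set_option linter.unusedSimpArgs false
set_option linter.unusedTactic false
set_option linter.unreachableTactic false

namespace Q37.SecGraph

universe u

variable (K : Type u) [Field K]

/-- first endpoint of the edge `(j, i)` -/
def srcv : Fin 3 → Fin 4 → Fin 11 := ![![0,2,3,4],![0,5,6,7],![0,8,9,10]]
/-- second endpoint of the edge `(j, i)` -/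
def tgtv : Fin 3 → Fin 4 → Fin 11 := ![![2,3,4,1],![5,6,7,1],![8,9,10,1]]
/-- the nodes -/
def nd : Fin 3 → Fin 4 → Fin 10 → K :=
  ![![tA K 2, tA K 3, tA K 4, tB K 4], ![tA K 5, tA K 6, tA K 7, tB K 7],
    ![tA K 8, tA K 9, tA K 10, tB K 10]]

variable {K}

/-- relation data -/
structure Rel (y : Fin 11 → Fin 10 → K) (c : Fin 3 → Fin 4 → K) : Prop where
  p0 : ∀ j, y (tgtv j 0) = c j 0 • nd K j 0 - c j 1 • nd K j 1
  p1 : ∀ j, y (tgtv j 1) = c j 1 • nd K j 1 - c j 2 • nd K j 2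
  p2 : ∀ j, y (tgtv j 2) = c j 2 • nd K j 2 - c j 3 • nd K j 3
  v0 : y 0 = - (c 0 0 • nd K 0 0 + c 1 0 • nd K 1 0 + c 2 0 • nd K 2 0)
  v1 : y 1 = c 0 3 • nd K 0 3 + c 1 3 • nd K 1 3 + c 2 3 • nd K 2 3

/-- coefficients of the relation -/
def cf (a b : Fin 11 → K) : Fin 3 → Fin 4 → K :=
  ![![a 2, a 3, a 4, -b 4], ![a 5, a 6, a 7, -b 7], ![a 8, a 9, a 10, -b 10]]

lemma rel_of_sum (a b : Fin 11 → K) (h : ∑ v, (a v • tA K v + b v • tB K v) = 0) :
    Rel (fun v => a v • tA K v + b v • tB K v) (cf a b) := by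
  rw [coords] at h
  have e0 : a 0 + a 2 + a 8 = 0 := congrFun h 0
  have e1 : b 0 + a 5 + a 8 = 0 := congrFun h 1
  have e2 : a 1 + b 4 + b 10 = 0 := congrFun h 2
  have e3 : b 1 + b 7 + b 10 = 0 := congrFun h 3
  have e4 : b 2 + a 3 = 0 := congrFun h 4
  have e5 : b 3 + a 4 = 0 := congrFun h 5
  have e6 : b 5 + a 6 = 0 := congrFun h 6
  have e7 : b 6 + a 7 = 0 := congrFun h 7
  have e8 : b 8 + a 9 = 0 := congrFun h 8
  have e9 : b 9 + a 10 = 0 := congrFun h 9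
  have g4 : b 2 = - a 3 := by linear_combination e4
  have g5 : b 3 = - a 4 := by linear_combination e5
  have g6 : b 5 = - a 6 := by linear_combination e6
  have g7 : b 6 = - a 7 := by linear_combination e7
  have g8 : b 8 = - a 9 := by linear_combination e8
  have g9 : b 9 = - a 10 := by linear_combination e9
  have g0 : a 0 = - a 2 - a 8 := by linear_combination e0
  have g1 : b 0 = - a 5 - a 8 := by linear_combination e1
  have g2 : a 1 = - b 4 - b 10 := by linear_combination e2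
  have g3 : b 1 = - b 7 - b 10 := by linear_combination e3
  constructor
  · intro j
    ext i
    fin_cases j <;> fin_cases i <;> simp [cf, tA, tB, nd, tgtv, g4, g5, g6, g7, g8, g9]
  · intro j
    ext i
    fin_cases j <;> fin_cases i <;> simp [cf, tA, tB, nd, tgtv, g4, g5, g6, g7, g8, g9]
  · intro j
    ext i
    fin_cases j <;> fin_cases i <;> simp [cf, tA, tB, nd, tgtv, g4, g5, g6, g7, g8, g9]
  · ext i
    fin_cases i <;> simp [cf, tA, tB, nd, tgtv, g0, g1] <;> ring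
  · ext i
    fin_cases i <;> simp [cf, tA, tB, nd, tgtv, g2, g3] <;> ring

lemma ind0 {α β γ : K} (h : α • nd K 0 0 + β • nd K 1 0 + γ • nd K 2 0 = 0) :
    α + γ = 0 ∧ β + γ = 0 := by
  constructor
  · have := congrFun h 0
    simpa [nd, tA, tB] using this
  · have := congrFun h 1
    simpa [nd, tA, tB] using this

lemma ind1 {α β γ : K} (h : α • nd K 0 3 + β • nd K 1 3 + γ • nd K 2 3 = 0) :
    α + γ = 0 ∧ β + γ = 0 := by
  constructor
  · have := congrFun h 2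
    simpa [nd, tA, tB] using this
  · have := congrFun h 3
    simpa [nd, tA, tB] using this

/-- coordinates -/
def q1 : Fin 3 → Fin 3 → Fin 10 := ![![0, 4, 5], ![1, 6, 7], ![0, 8, 9]]
/-- coordinates -/
def q2 : Fin 3 → Fin 3 → Fin 10 := ![![4, 5, 2], ![6, 7, 3], ![8, 9, 2]]

lemma ind_path (j i : Fin 3) {α β : K}
    (h : α • nd K j i.castSucc - β • nd K j i.succ = 0) : α = 0 ∧ β = 0 := by
  constructor
  · have := congrFun h (q1 j i)
    revert this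
    fin_cases j <;> fin_cases i <;> simp [nd, tA, tB, q1]
  · have := congrFun h (q2 j i)
    revert this
    fin_cases j <;> fin_cases i <;> simp [nd, tA, tB, q2]

lemma nd_src (j : Fin 3) (i : Fin 4) : nd K j i ∈ TL K (srcv j i) := by
  rw [mem_TL]
  fin_cases j <;> fin_cases i <;> simp only [nd, srcv]
  · exact ⟨1, 0, by ext i; fin_cases i <;> simp [tA, tB]⟩
  · exact ⟨0, 1, by ext i; fin_cases i <;> simp [tA, tB]⟩
  · exact ⟨0, 1, by ext i; fin_cases i <;> simp [tA, tB]⟩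
  · exact ⟨0, 1, by ext i; fin_cases i <;> simp [tA, tB]⟩
  · exact ⟨0, 1, by ext i; fin_cases i <;> simp [tA, tB]⟩
  · exact ⟨0, 1, by ext i; fin_cases i <;> simp [tA, tB]⟩
  · exact ⟨0, 1, by ext i; fin_cases i <;> simp [tA, tB]⟩
  · exact ⟨0, 1, by ext i; fin_cases i <;> simp [tA, tB]⟩
  · exact ⟨1, 1, by ext i; fin_cases i <;> simp [tA, tB]⟩
  · exact ⟨0, 1, by ext i; fin_cases i <;> simp [tA, tB]⟩
  · exact ⟨0, 1, by ext i; fin_cases i <;> simp [tA, tB]⟩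
  · exact ⟨0, 1, by ext i; fin_cases i <;> simp [tA, tB]⟩

lemma nd_tgt (j : Fin 3) (i : Fin 4) : nd K j i ∈ TL K (tgtv j i) := by
  rw [mem_TL]
  fin_cases j <;> fin_cases i <;> simp only [nd, tgtv]
  · exact ⟨1, 0, by ext i; fin_cases i <;> simp [tA, tB]⟩
  · exact ⟨1, 0, by ext i; fin_cases i <;> simp [tA, tB]⟩
  · exact ⟨1, 0, by ext i; fin_cases i <;> simp [tA, tB]⟩
  · exact ⟨1, 0, by ext i; fin_cases i <;> simp [tA, tB]⟩
  · exact ⟨1, 0, by ext i; fin_cases i <;> simp [tA, tB]⟩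
  · exact ⟨1, 0, by ext i; fin_cases i <;> simp [tA, tB]⟩
  · exact ⟨1, 0, by ext i; fin_cases i <;> simp [tA, tB]⟩
  · exact ⟨0, 1, by ext i; fin_cases i <;> simp [tA, tB]⟩
  · exact ⟨1, 0, by ext i; fin_cases i <;> simp [tA, tB]⟩
  · exact ⟨1, 0, by ext i; fin_cases i <;> simp [tA, tB]⟩
  · exact ⟨1, 0, by ext i; fin_cases i <;> simp [tA, tB]⟩
  · exact ⟨1, 1, by ext i; fin_cases i <;> simp [tA, tB]⟩

lemma nd_ne (j : Fin 3) (i : Fin 4) : nd K j i ≠ 0 := by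
  intro h
  fin_cases j <;> fin_cases i <;> simp only [nd] at h
  · exact one_ne_zero (congrFun h 0)
  · exact one_ne_zero (congrFun h 4)
  · exact one_ne_zero (congrFun h 5)
  · exact one_ne_zero (congrFun h 2)
  · exact one_ne_zero (congrFun h 1)
  · exact one_ne_zero (congrFun h 6)
  · exact one_ne_zero (congrFun h 7)
  · exact one_ne_zero (congrFun h 3)
  · exact one_ne_zero (congrFun h 0)
  · exact one_ne_zero (congrFun h 8)
  · exact one_ne_zero (congrFun h 9)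
  · exact one_ne_zero (congrFun h 2)

/-- the abstract path lemma -/
lemma path_mem {M : Type*} [AddCommGroup M] [Module K M] (Λ : Submodule K M) (x : Fin 4 → M)
    (D : Fin 4 → Prop) (hx : ∃ i, x i = 0 ∧ ¬ D i) (hD : ∀ i, D i → x i ∈ Λ)
    (h01 : ¬ D 0 → ¬ D 1 → x 0 - x 1 ∈ Λ) (h12 : ¬ D 1 → ¬ D 2 → x 1 - x 2 ∈ Λ)
    (h23 : ¬ D 2 → ¬ D 3 → x 2 - x 3 ∈ Λ) (h02 : D 1 → x 0 - x 2 ∈ Λ) (h13 : D 2 → x 1 - x 3 ∈ Λ)
    (m01 : ¬ (D 0 ∧ D 1)) (m12 : ¬ (D 1 ∧ D 2)) (m23 : ¬ (D 2 ∧ D 3)) : ∀ i, x i ∈ Λ := by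
  have e : ∀ i j, x i - x j ∈ Λ → (x i ∈ Λ ↔ x j ∈ Λ) := by
    intro i j h
    constructor
    · intro hi
      have := Λ.sub_mem hi h
      rwa [sub_sub_cancel] at this
    · intro hj
      have := Λ.add_mem h hj
      rwa [sub_add_cancel] at this
  have g01 := fun a b => e _ _ (h01 a b)
  have g12 := fun a b => e _ _ (h12 a b)
  have g23 := fun a b => e _ _ (h23 a b)
  have g02 := fun a => e _ _ (h02 a)
  have g13 := fun a => e _ _ (h13 a)
  have d0 := hD 0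
  have d1 := hD 1
  have d2 := hD 2
  have d3 := hD 3
  have hz : ∀ i, x i = 0 → x i ∈ Λ := fun i h => h ▸ Λ.zero_mem
  have hmiss : (x 0 ∈ Λ ∧ ¬ D 0) ∨ (x 1 ∈ Λ ∧ ¬ D 1) ∨ (x 2 ∈ Λ ∧ ¬ D 2) ∨ (x 3 ∈ Λ ∧ ¬ D 3) := by
    obtain ⟨i, hi, hi'⟩ := hx
    have := hz i hi
    fin_cases i
    · exact Or.inl ⟨this, hi'⟩
    · exact Or.inr (Or.inl ⟨this, hi'⟩)
    · exact Or.inr (Or.inr (Or.inl ⟨this, hi'⟩))
    · exact Or.inr (Or.inr (Or.inr ⟨this, hi'⟩))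
  clear hx hD h01 h12 h23 h02 h13 hz e
  have key : x 0 ∈ Λ ∧ x 1 ∈ Λ ∧ x 2 ∈ Λ ∧ x 3 ∈ Λ := by
    generalize (x 0 ∈ Λ) = P0 at *
    generalize (x 1 ∈ Λ) = P1 at *
    generalize (x 2 ∈ Λ) = P2 at *
    generalize (x 3 ∈ Λ) = P3 at *
    generalize D 0 = D0 at *
    generalize D 1 = D1 at *
    generalize D 2 = D2 at *
    generalize D 3 = D3 at *
    by_cases c0 : D0 <;> by_cases c1 : D1 <;> by_cases c2 : D2 <;> by_cases c3 : D3 <;>
      simp_all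
  intro i
  fin_cases i
  · exact key.1
  · exact key.2.1
  · exact key.2.2.1
  · exact key.2.2.2

lemma comb2 : ∀ j : Fin 3, ∀ T : Finset (Fin 11), tgtv j 0 ∈ T → tgtv j 1 ∈ T → tgtv j 2 ∈ T →
    (0 ∈ T ∨ ∀ j', tgtv j' 0 ∈ T) → (1 ∈ T ∨ ∀ j', tgtv j' 2 ∈ T) → 5 ≤ T.card := by
  decide +kernel

lemma st : ∀ j : Fin 3, srcv j 0 = 0 ∧ srcv j 1 = tgtv j 0 ∧ srcv j 2 = tgtv j 1 ∧
    srcv j 3 = tgtv j 2 ∧ tgtv j 3 = 1 := by decide

lemma inc0 : ∀ j j' : Fin 3, ∀ i' : Fin 4, (srcv j' i' = tgtv j 0 ∨ tgtv j' i' = tgtv j 0) →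
    j' = j ∧ (i' = 0 ∨ i' = 1) := by decide
lemma inc1 : ∀ j j' : Fin 3, ∀ i' : Fin 4, (srcv j' i' = tgtv j 1 ∨ tgtv j' i' = tgtv j 1) →
    j' = j ∧ (i' = 1 ∨ i' = 2) := by decide
lemma inc2 : ∀ j j' : Fin 3, ∀ i' : Fin 4, (srcv j' i' = tgtv j 2 ∨ tgtv j' i' = tgtv j 2) →
    j' = j ∧ (i' = 2 ∨ i' = 3) := by decide

section

variable {y : Fin 11 → Fin 10 → K} {c : Fin 3 → Fin 4 → K}

lemma rel_y0 (R : Rel y c) {j : Fin 3} (h : c j 0 ≠ 0) (h0 : y 0 = 0) : ∀ j', c j' 0 ≠ 0 := by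
  have h1 := R.v0
  rw [h0] at h1
  have h2 := ind0 (neg_eq_zero.1 h1.symm)
  intro j' hj'
  apply h
  have h3 : c 0 0 = - c 2 0 := by linear_combination h2.1
  have h4 : c 1 0 = - c 2 0 := by linear_combination h2.2
  have h5 : c 2 0 = 0 := by
    fin_cases j'
    · have : c 0 0 = 0 := hj'
      rw [h3] at this; exact neg_eq_zero.1 this
    · have : c 1 0 = 0 := hj'
      rw [h4] at this; exact neg_eq_zero.1 this
    · exact hj'
  fin_cases j
  · show c 0 0 = 0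
    rw [h3, h5, neg_zero]
  · show c 1 0 = 0
    rw [h4, h5, neg_zero]
  · exact h5

lemma rel_y1 (R : Rel y c) {j : Fin 3} (h : c j 3 ≠ 0) (h0 : y 1 = 0) : ∀ j', c j' 3 ≠ 0 := by
  have h1 := R.v1
  rw [h0] at h1
  have h2 := ind1 h1.symm
  intro j' hj'
  apply h
  have h3 : c 0 3 = - c 2 3 := by linear_combination h2.1
  have h4 : c 1 3 = - c 2 3 := by linear_combination h2.2
  have h5 : c 2 3 = 0 := by
    fin_cases j'
    · have : c 0 3 = 0 := hj'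
      rw [h3] at this; exact neg_eq_zero.1 this
    · have : c 1 3 = 0 := hj'
      rw [h4] at this; exact neg_eq_zero.1 this
    · exact hj'
  fin_cases j
  · show c 0 3 = 0
    rw [h3, h5, neg_zero]
  · show c 1 3 = 0
    rw [h4, h5, neg_zero]
  · exact h5

lemma rel_p0 (R : Rel y c) {j : Fin 3} (h : c j 0 ≠ 0 ∨ c j 1 ≠ 0) : y (tgtv j 0) ≠ 0 := by
  intro h0
  have := ind_path j 0 (α := c j 0) (β := c j 1) (by rw [← h0]; exact (R.p0 j).symm)
  tauto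

lemma rel_p1 (R : Rel y c) {j : Fin 3} (h : c j 1 ≠ 0 ∨ c j 2 ≠ 0) : y (tgtv j 1) ≠ 0 := by
  intro h0
  have := ind_path j 1 (α := c j 1) (β := c j 2) (by rw [← h0]; exact (R.p1 j).symm)
  tauto

lemma rel_p2 (R : Rel y c) {j : Fin 3} (h : c j 2 ≠ 0 ∨ c j 3 ≠ 0) : y (tgtv j 2) ≠ 0 := by
  intro h0
  have := ind_path j 2 (α := c j 2) (β := c j 3) (by rw [← h0]; exact (R.p2 j).symm)
  tauto

lemma rel_missing (R : Rel y c) (D : Fin 3 → Fin 4 → Prop) (T : Finset (Fin 11)) (hT : T.card ≤ 4)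
    (hTy : ∀ v, v ∉ T → y v = 0) (hTD : ∀ j i, D j i → srcv j i ∈ T ∧ tgtv j i ∈ T) (j : Fin 3) :
    ∃ i, c j i = 0 ∧ ¬ D j i := by
  by_contra hc
  push Not at hc
  obtain ⟨s0, s1, s2, s3, s4⟩ := st j
  have t0 : tgtv j 0 ∈ T := by
    by_contra h
    have h1 : c j 0 ≠ 0 := fun h1 => h (hTD j 0 (hc 0 h1)).2
    exact rel_p0 R (Or.inl h1) (hTy _ h)
  have t1 : tgtv j 1 ∈ T := by
    by_contra h
    have h1 : c j 1 ≠ 0 := fun h1 => h (hTD j 1 (hc 1 h1)).2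
    exact rel_p1 R (Or.inl h1) (hTy _ h)
  have t2 : tgtv j 2 ∈ T := by
    by_contra h
    have h1 : c j 2 ≠ 0 := fun h1 => h (hTD j 2 (hc 2 h1)).2
    exact rel_p2 R (Or.inl h1) (hTy _ h)
  have t3 : 0 ∈ T ∨ ∀ j', tgtv j' 0 ∈ T := by
    by_cases h : 0 ∈ T
    · exact Or.inl h
    · right
      have h1 : c j 0 ≠ 0 := fun h1 => h (s0 ▸ (hTD j 0 (hc 0 h1)).1)
      have h2 := rel_y0 R h1 (hTy _ h)
      intro j'
      by_contra h3
      exact rel_p0 R (Or.inl (h2 j')) (hTy _ h3)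
  have t4 : 1 ∈ T ∨ ∀ j', tgtv j' 2 ∈ T := by
    by_cases h : 1 ∈ T
    · exact Or.inl h
    · right
      have h1 : c j 3 ≠ 0 := fun h1 => h (s4 ▸ (hTD j 3 (hc 3 h1)).2)
      have h2 := rel_y1 R h1 (hTy _ h)
      intro j'
      by_contra h3
      exact rel_p2 R (Or.inr (h2 j')) (hTy _ h3)
  have := comb2 j T t0 t1 t2 t3 t4
  omega

/-- In a relation between points on at most four lines which is a combination of elements of `Λ`,
all nodes involved are in `Λ`. -/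
lemma rel_mem (Λ : Submodule K (Fin 10 → K)) (R : Rel y c) (D : Fin 3 → Fin 4 → Prop)
    (hD : ∀ j i, D j i → nd K j i ∈ Λ)
    (h1 : ∀ v, (∀ j i, D j i → srcv j i ≠ v ∧ tgtv j i ≠ v) → y v ∈ Λ)
    (h2 : ∀ j i, D j i → y (srcv j i) + y (tgtv j i) ∈ Λ)
    (hM : ∀ j i i', D j i → D j i' → srcv j i = tgtv j i' → False)
    (T : Finset (Fin 11)) (hT : T.card ≤ 4)
    (hTy : ∀ v, v ∉ T → y v = 0) (hTD : ∀ j i, D j i → srcv j i ∈ T ∧ tgtv j i ∈ T)
    (j : Fin 3) : ∀ i, c j i • nd K j i ∈ Λ := by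
  obtain ⟨s0, s1, s2, s3, s4⟩ := st j
  refine path_mem Λ (fun i => c j i • nd K j i) (D j) ?_ ?_ ?_ ?_ ?_ ?_ ?_ ?_ ?_ ?_
  · obtain ⟨i, hi, hi'⟩ := rel_missing R D T hT hTy hTD j
    exact ⟨i, by simp [hi], hi'⟩
  · intro i hi
    exact Λ.smul_mem _ (hD j i hi)
  · intro d0 d1
    have := h1 (tgtv j 0) (by
      intro j' i' hD'
      constructor
      · intro h
        obtain ⟨rfl, rfl | rfl⟩ := inc0 j j' i' (Or.inl h)
        · exact d0 hD'
        · exact d1 hD'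
      · intro h
        obtain ⟨rfl, rfl | rfl⟩ := inc0 j j' i' (Or.inr h)
        · exact d0 hD'
        · exact d1 hD')
    rwa [R.p0] at this
  · intro d0 d1
    have := h1 (tgtv j 1) (by
      intro j' i' hD'
      constructor
      · intro h
        obtain ⟨rfl, rfl | rfl⟩ := inc1 j j' i' (Or.inl h)
        · exact d0 hD'
        · exact d1 hD'
      · intro h
        obtain ⟨rfl, rfl | rfl⟩ := inc1 j j' i' (Or.inr h)
        · exact d0 hD'
        · exact d1 hD')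
    rwa [R.p1] at this
  · intro d0 d1
    have := h1 (tgtv j 2) (by
      intro j' i' hD'
      constructor
      · intro h
        obtain ⟨rfl, rfl | rfl⟩ := inc2 j j' i' (Or.inl h)
        · exact d0 hD'
        · exact d1 hD'
      · intro h
        obtain ⟨rfl, rfl | rfl⟩ := inc2 j j' i' (Or.inr h)
        · exact d0 hD'
        · exact d1 hD')
    rwa [R.p2] at this
  · intro d1
    have := h2 j 1 d1
    rw [s1, R.p0, R.p1, sub_add_sub_cancel] at this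
    exact this
  · intro d2
    have := h2 j 2 d2
    rw [s2, R.p1, R.p2, sub_add_sub_cancel] at this
    exact this
  · rintro ⟨d0, d1⟩
    exact hM j 1 0 d1 d0 s1
  · rintro ⟨d0, d1⟩
    exact hM j 2 1 d1 d0 s2
  · rintro ⟨d0, d1⟩
    exact hM j 3 2 d1 d0 s3

lemma rel_all_mem (Λ : Submodule K (Fin 10 → K)) (R : Rel y c)
    (h : ∀ j i, c j i • nd K j i ∈ Λ) : ∀ v, y v ∈ Λ := by
  have hc : ∀ v : Fin 11, v = 0 ∨ v = 1 ∨ ∃ j, v = tgtv j 0 ∨ v = tgtv j 1 ∨ v = tgtv j 2 := by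
    decide
  intro v
  rcases hc v with rfl | rfl | ⟨j, rfl | rfl | rfl⟩
  · rw [R.v0]
    exact Λ.neg_mem (Λ.add_mem (Λ.add_mem (h _ _) (h _ _)) (h _ _))
  · rw [R.v1]
    exact Λ.add_mem (Λ.add_mem (h _ _) (h _ _)) (h _ _)
  · rw [R.p0]; exact Λ.sub_mem (h _ _) (h _ _)
  · rw [R.p1]; exact Λ.sub_mem (h _ _) (h _ _)
  · rw [R.p2]; exact Λ.sub_mem (h _ _) (h _ _)

lemma rel_zero (Λ : Submodule K (Fin 10 → K)) (R : Rel y c)
    (h : ∀ j i, c j i • nd K j i ∈ Λ)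
    (hF : ∀ v, ∀ x ∈ Λ, ∀ z ∈ Λ, x ∈ TL K v → z ∈ TL K v → x ≠ 0 → ∃ t : K, z = t • x)
    (hDD : ∀ j i, y (srcv j i) ≠ 0 → y (tgtv j i) ≠ 0 → nd K j i ∈ Λ → False) :
    ∀ v, y v = 0 := by
  have hnd : ∀ j i, c j i ≠ 0 → nd K j i ∈ Λ := by
    intro j i hc
    have := Λ.smul_mem (c j i)⁻¹ (h j i)
    rwa [smul_smul, inv_mul_cancel₀ hc, one_smul] at this
  have y0 : ∀ j, c j 0 ≠ 0 → y 0 ≠ 0 := by
    intro j hj h0
    have h1 := rel_y0 R hj h0
    obtain ⟨t, ht⟩ := hF 0 _ (hnd 0 0 (h1 0)) _ (hnd 1 0 (h1 1)) (nd_src 0 0) (nd_src 1 0)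
      (nd_ne 0 0)
    have := ind0 (α := t) (β := -1) (γ := 0) (by rw [ht]; simp)
    simp at this
  have y1 : ∀ j, c j 3 ≠ 0 → y 1 ≠ 0 := by
    intro j hj h0
    have h1 := rel_y1 R hj h0
    obtain ⟨t, ht⟩ := hF 1 _ (hnd 0 3 (h1 0)) _ (hnd 1 3 (h1 1)) (nd_tgt 0 3) (nd_tgt 1 3)
      (nd_ne 0 3)
    have := ind1 (α := t) (β := -1) (γ := 0) (by rw [ht]; simp)
    simp at this
  have hc : ∀ j i, c j i = 0 := by
    intro j i
    by_contra hc
    obtain ⟨s0, s1, s2, s3, s4⟩ := st j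
    refine hDD j i ?_ ?_ (hnd j i hc)
    · fin_cases i
      · show y (srcv j 0) ≠ 0
        rw [s0]; exact y0 j hc
      · show y (srcv j 1) ≠ 0
        rw [s1]; exact rel_p0 R (Or.inr hc)
      · show y (srcv j 2) ≠ 0
        rw [s2]; exact rel_p1 R (Or.inr hc)
      · show y (srcv j 3) ≠ 0
        rw [s3]; exact rel_p2 R (Or.inr hc)
    · fin_cases i
      · exact rel_p0 R (Or.inl hc)
      · exact rel_p1 R (Or.inl hc)
      · exact rel_p2 R (Or.inl hc)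
      · show y (tgtv j 3) ≠ 0
        rw [s4]; exact y1 j hc
  have hcs : ∀ v : Fin 11, v = 0 ∨ v = 1 ∨ ∃ j, v = tgtv j 0 ∨ v = tgtv j 1 ∨ v = tgtv j 2 := by
    decide
  intro v
  rcases hcs v with rfl | rfl | ⟨j, rfl | rfl | rfl⟩
  · rw [R.v0]; simp [hc]
  · rw [R.v1]; simp [hc]
  · rw [R.p0]; simp [hc]
  · rw [R.p1]; simp [hc]
  · rw [R.p2]; simp [hc]

end

end Q37.SecGraph
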