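import Pool.Agent.Q37.SecGraph.Fin

/-!
The polynomial `f0` vanishes on all secant three-planes.
-/

open MvPolynomial Module

open scoped LinearAlgebra.Projectivization

namespace Q37.SecGraph

universe u

variable {K : Type u} [Field K]

lemma rep_mem (p : ℙ K (Fin 10 → K)) : p.rep ∈ p.submodule := by
  rw [Projectivization.submodule_eq]; exact Submodule.mem_span_singleton_self _

section

variable (P D : Finset (ℙ K (Fin 10 → K))) (J : ℙ K (Fin 10 → K) → Fin 3)
  (I : ℙ K (Fin 10 → K) → Fin 4) (Y1 Y2 : ℙ K (Fin 10 → K) → Fin 10 → K)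
  (u : ℙ K (Fin 10 → K) → Fin 11) (t s : ℙ K (Fin 10 → K) → K)

/-- the components of a combination of the chosen vectors -/
noncomputable def comp (v : Fin 11) : Fin 10 → K :=
  ∑ p ∈ P, (if u p = v then t p • p.rep else 0) +
    ∑ p ∈ D, ((if srcv (J p) (I p) = v then s p • Y1 p else 0) +
      (if tgtv (J p) (I p) = v then s p • Y2 p else 0))

lemma sum_comp : ∑ v, comp P D J I Y1 Y2 u t s v =
    ∑ p ∈ P, t p • p.rep + ∑ p ∈ D, s p • (Y1 p + Y2 p) := by
  unfold comp
  rw [Finset.sum_add_distrib, Finset.sum_comm, Finset.sum_comm (s := Finset.univ) (t := D)]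
  congr 1
  · refine Finset.sum_congr rfl fun p _ => ?_
    rw [Finset.sum_ite_eq]; simp
  · refine Finset.sum_congr rfl fun p _ => ?_
    rw [Finset.sum_add_distrib, Finset.sum_ite_eq, Finset.sum_ite_eq, smul_add]; simp

variable {P D J I Y1 Y2 u t s}

lemma comp_mem (hu : ∀ p ∈ P, p.submodule ≤ TL K (u p))
    (h1 : ∀ p ∈ D, Y1 p ∈ TL K (srcv (J p) (I p))) (h2 : ∀ p ∈ D, Y2 p ∈ TL K (tgtv (J p) (I p)))
    (v : Fin 11) : comp P D J I Y1 Y2 u t s v ∈ TL K v := by
  unfold comp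
  refine (TL K v).add_mem ((TL K v).sum_mem fun p hp => ?_) ((TL K v).sum_mem fun p hp => ?_)
  · split_ifs with h
    · rw [← h]; exact (TL K (u p)).smul_mem _ (hu p hp (rep_mem p))
    · exact (TL K v).zero_mem
  · refine (TL K v).add_mem ?_ ?_
    · split_ifs with h
      · rw [← h]; exact Submodule.smul_mem _ _ (h1 p hp)
      · exact (TL K v).zero_mem
    · split_ifs with h
      · rw [← h]; exact Submodule.smul_mem _ _ (h2 p hp)
      · exact (TL K v).zero_mem

open Classical in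
lemma comp_zero (v : Fin 11) (hv : v ∉ P.image u ∪ D.image (fun p => tgtv (J p) (I p)))
    (hu : ∀ p ∈ D, p ∈ P ∧ u p = srcv (J p) (I p)) : comp P D J I Y1 Y2 u t s v = 0 := by
  rw [Finset.mem_union, not_or, Finset.mem_image, Finset.mem_image] at hv
  obtain ⟨hv1, hv2⟩ := hv
  push Not at hv1 hv2
  unfold comp
  rw [Finset.sum_eq_zero, Finset.sum_eq_zero, add_zero]
  · intro p hp
    rw [if_neg (hv2 p hp), if_neg, add_zero]
    rw [← (hu p hp).2]
    exact hv1 p (hu p hp).1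
  · intro p hp
    rw [if_neg (hv1 p hp)]

end

/-- The main independence statement. -/
lemma indep [Infinite K] {Λ : Submodule K (Fin 10 → K)} (hfin : (pointsOn (TL K) Λ).Finite)
    (P D : Finset (ℙ K (Fin 10 → K))) (J : ℙ K (Fin 10 → K) → Fin 3)
    (I : ℙ K (Fin 10 → K) → Fin 4) (Y1 Y2 : ℙ K (Fin 10 → K) → Fin 10 → K)
    (u : ℙ K (Fin 10 → K) → Fin 11) (t s : ℙ K (Fin 10 → K) → K)
    (hP : ∀ p ∈ P, p.submodule ≤ Λ) (hDP : D ⊆ P)
    (hu : ∀ p ∈ P, p.submodule ≤ TL K (u p)) (hu' : ∀ p ∈ D, u p = srcv (J p) (I p))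
    (hn : ∀ p ∈ D, nd K (J p) (I p) ∈ p.submodule)
    (h1 : ∀ p ∈ D, Y1 p ∈ TL K (srcv (J p) (I p))) (h2 : ∀ p ∈ D, Y2 p ∈ TL K (tgtv (J p) (I p)))
    (h3 : ∀ p ∈ D, Y1 p + Y2 p ∈ Λ) (h4 : ∀ p ∈ D, Y1 p + Y2 p ∉ p.submodule)
    (hcard : P.card + D.card ≤ 4)
    (hsum : ∑ p ∈ P, t p • p.rep + ∑ p ∈ D, s p • (Y1 p + Y2 p) = 0) :
    (∀ p ∈ P, t p = 0) ∧ ∀ p ∈ D, s p = 0 := by
  classical
  -- points of `D` lie on both lines
  have hle : ∀ p ∈ D, p.submodule ≤ Submodule.span K {nd K (J p) (I p)} := by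
    intro p hp
    have h := hn p hp
    rw [Projectivization.submodule_eq, Submodule.mem_span_singleton] at h
    obtain ⟨c, hc⟩ := h
    have hc0 : c ≠ 0 := by
      rintro rfl
      rw [zero_smul] at hc
      exact nd_ne _ _ hc.symm
    rw [Projectivization.submodule_eq, Submodule.span_singleton_le_iff_mem,
      Submodule.mem_span_singleton]
    exact ⟨c⁻¹, by rw [← hc, smul_smul, inv_mul_cancel₀ hc0, one_smul]⟩
  have hs : ∀ p ∈ D, p.submodule ≤ TL K (srcv (J p) (I p)) := fun p hp =>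
    (hle p hp).trans ((Submodule.span_singleton_le_iff_mem _ _).2 (nd_src _ _))
  have hg : ∀ p ∈ D, p.submodule ≤ TL K (tgtv (J p) (I p)) := fun p hp =>
    (hle p hp).trans ((Submodule.span_singleton_le_iff_mem _ _).2 (nd_tgt _ _))
  have S : ∀ v, ∀ p ∈ P, ∀ q ∈ P, p.submodule ≤ TL K v → q.submodule ≤ TL K v → p = q :=
    fun v p hp q hq hpv hqv => same_point (TL K) Λ hfin v p q (hP p hp) (hP q hq) hpv hqv
  have hF : ∀ v, ∀ x ∈ Λ, ∀ z ∈ Λ, x ∈ TL K v → z ∈ TL K v → x ≠ 0 → ∃ t : K, z = t • x :=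
    fun v x hx z hz hxv hzv hx0 => fin_line (TL K) Λ hfin v x z hx hz hxv hzv hx0
  set y := comp P D J I Y1 Y2 u t s with hy
  have hyL : ∀ v, y v ∈ TL K v := comp_mem hu h1 h2
  have hy0 : ∑ v, y v = 0 := by rw [hy, sum_comp]; exact hsum
  obtain ⟨c, R⟩ := rel_of_sum' y hyL hy0
  set T := P.image u ∪ D.image (fun p => tgtv (J p) (I p)) with hT
  have hTc : T.card ≤ 4 :=
    (Finset.card_union_le _ _).trans
      ((Nat.add_le_add Finset.card_image_le Finset.card_image_le).trans hcard)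
  have hPt : ∀ v, ∑ p ∈ P, (if u p = v then t p • p.rep else 0) ∈ Λ := by
    intro v
    refine Λ.sum_mem fun p hp => ?_
    split_ifs
    · exact Λ.smul_mem _ (hP p hp (rep_mem p))
    · exact Λ.zero_mem
  have hmem : ∀ j i, c j i • nd K j i ∈ Λ := by
    intro j
    refine rel_mem Λ R (fun j i => ∃ p ∈ D, J p = j ∧ I p = i) ?_ ?_ ?_ ?_ T hTc ?_ ?_ j
    · rintro j i ⟨p, hp, rfl, rfl⟩
      exact hP p (hDP hp) (hn p hp)
    · intro v hv
      rw [hy]
      unfold comp
      refine Λ.add_mem (hPt v) (Λ.sum_mem fun p hp => ?_)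
      obtain ⟨g1, g2⟩ := hv _ _ ⟨p, hp, rfl, rfl⟩
      rw [if_neg g1, if_neg g2, add_zero]
      exact Λ.zero_mem
    · rintro j i ⟨p, hp, rfl, rfl⟩
      rw [hy]
      unfold comp
      rw [add_add_add_comm]
      refine Λ.add_mem (Λ.add_mem (hPt _) (hPt _)) ?_
      rw [← Finset.sum_add_distrib]
      refine Λ.sum_mem fun q hq => ?_
      by_cases hqp : q = p
      · subst hqp
        rw [if_pos rfl, if_neg (src_ne_tgt _ _).symm, if_neg (src_ne_tgt _ _), if_pos rfl, add_zero,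
          zero_add, ← smul_add]
        exact Λ.smul_mem _ (h3 q hq)
      · have e1 : srcv (J q) (I q) ≠ srcv (J p) (I p) := fun h =>
          hqp (S _ q (hDP hq) p (hDP hp) (hs q hq) (h ▸ hs p hp))
        have e2 : tgtv (J q) (I q) ≠ srcv (J p) (I p) := fun h =>
          hqp (S _ q (hDP hq) p (hDP hp) (hg q hq) (h ▸ hs p hp))
        have e3 : srcv (J q) (I q) ≠ tgtv (J p) (I p) := fun h =>
          hqp (S _ q (hDP hq) p (hDP hp) (hs q hq) (h ▸ hg p hp))
        have e4 : tgtv (J q) (I q) ≠ tgtv (J p) (I p) := fun h =>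
          hqp (S _ q (hDP hq) p (hDP hp) (hg q hq) (h ▸ hg p hp))
        rw [if_neg e1, if_neg e2, if_neg e3, if_neg e4]
        simp
    · rintro j i i' ⟨p, hp, rfl, rfl⟩ ⟨q, hq, hj, rfl⟩ h
      have hpq : p = q := S _ p (hDP hp) q (hDP hq) (hs p hp) (by rw [h, ← hj]; exact hg q hq)
      subst hpq
      exact src_ne_tgt _ _ h
    · intro v hv
      exact comp_zero v hv fun p hp => ⟨hDP hp, hu' p hp⟩
    · rintro j i ⟨p, hp, rfl, rfl⟩
      rw [hT, Finset.mem_union, Finset.mem_union, Finset.mem_image, Finset.mem_image,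
        Finset.mem_image, Finset.mem_image]
      exact ⟨Or.inl ⟨p, hDP hp, hu' p hp⟩, Or.inr ⟨p, hp, rfl⟩⟩
  have hyΛ := rel_all_mem Λ R hmem
  -- the tangent coefficients vanish
  have hs0 : ∀ p ∈ D, s p = 0 := by
    intro p hp
    by_contra hsp
    have g1 := hyΛ (srcv (J p) (I p))
    have g2 : ∑ q ∈ D, ((if srcv (J q) (I q) = srcv (J p) (I p) then s q • Y1 q else 0) +
        (if tgtv (J q) (I q) = srcv (J p) (I p) then s q • Y2 q else 0)) = s p • Y1 p := by
      rw [Finset.sum_eq_single p]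
      · rw [if_pos rfl, if_neg (src_ne_tgt _ _).symm, add_zero]
      · intro q hq hqp
        have e1 : srcv (J q) (I q) ≠ srcv (J p) (I p) := fun h =>
          hqp (S _ q (hDP hq) p (hDP hp) (hs q hq) (h ▸ hs p hp))
        have e2 : tgtv (J q) (I q) ≠ srcv (J p) (I p) := fun h =>
          hqp (S _ q (hDP hq) p (hDP hp) (hg q hq) (h ▸ hs p hp))
        rw [if_neg e1, if_neg e2, add_zero]
      · intro h; exact absurd hp h
    have g3 : s p • Y1 p ∈ Λ := by
      rw [hy] at g1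
      unfold comp at g1
      rw [g2] at g1
      exact (Submodule.add_mem_iff_right Λ (hPt _)).1 g1
    have g4 : Y1 p ∈ Λ := by
      have := Λ.smul_mem (s p)⁻¹ g3
      rwa [smul_smul, inv_mul_cancel₀ hsp, one_smul] at this
    have g5 : Y2 p ∈ Λ := (Submodule.add_mem_iff_right Λ g4).1 (h3 p hp)
    have hr := hP p (hDP hp) (rep_mem p)
    obtain ⟨t1, ht1⟩ := hF _ _ hr _ g4 (hs p hp (rep_mem p)) (h1 p hp) p.rep_nonzero
    obtain ⟨t2, ht2⟩ := hF _ _ hr _ g5 (hg p hp (rep_mem p)) (h2 p hp) p.rep_nonzero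
    apply h4 p hp
    rw [ht1, ht2]
    exact p.submodule.add_mem (p.submodule.smul_mem _ (rep_mem p))
      (p.submodule.smul_mem _ (rep_mem p))
  have hyP : ∀ v, y v = ∑ p ∈ P, (if u p = v then t p • p.rep else 0) := by
    intro v
    rw [hy]
    unfold comp
    rw [add_eq_left]
    refine Finset.sum_eq_zero fun p hp => ?_
    rw [hs0 p hp]; simp
  have hyz : ∀ v, y v = 0 := by
    refine rel_zero Λ R hmem hF ?_
    intro j i hy1 hy2 hnΛ
    rw [hyP] at hy1 hy2
    obtain ⟨p, hp, hp1⟩ := Finset.exists_ne_zero_of_sum_ne_zero hy1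
    obtain ⟨q, hq, hq1⟩ := Finset.exists_ne_zero_of_sum_ne_zero hy2
    have hp2 : u p = srcv j i := by
      by_contra h
      exact hp1 (if_neg h)
    have hq2 : u q = tgtv j i := by
      by_contra h
      exact hq1 (if_neg h)
    have hpn : p = Projectivization.mk K (nd K j i) (nd_ne j i) := by
      refine same_point (TL K) Λ hfin (srcv j i) _ _ (hP p hp) ?_ (hp2 ▸ hu p hp) ?_
      · rw [Projectivization.submodule_mk, Submodule.span_singleton_le_iff_mem]; exact hnΛ
      · rw [Projectivization.submodule_mk, Submodule.span_singleton_le_iff_mem]; exact nd_src _ _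
    have hqn : q = Projectivization.mk K (nd K j i) (nd_ne j i) := by
      refine same_point (TL K) Λ hfin (tgtv j i) _ _ (hP q hq) ?_ (hq2 ▸ hu q hq) ?_
      · rw [Projectivization.submodule_mk, Submodule.span_singleton_le_iff_mem]; exact hnΛ
      · rw [Projectivization.submodule_mk, Submodule.span_singleton_le_iff_mem]; exact nd_tgt _ _
    have : p = q := hpn.trans hqn.symm
    rw [this, hq2] at hp2
    exact src_ne_tgt _ _ hp2.symm
  refine ⟨fun p hp => ?_, hs0⟩
  have h := hyz (u p)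
  rw [hyP, Finset.sum_eq_single p, if_pos rfl] at h
  · rcases smul_eq_zero.1 h with h | h
    · exact h
    · exact absurd h p.rep_nonzero
  · intro q hq hqp
    rw [if_neg]
    intro h'
    exact hqp (S _ q hq p hp (hu q hq) (h' ▸ hu p hp))
  · intro h'; exact absurd hp h'

/-- `f0` vanishes on every secant three-plane. -/
theorem f0_mem [Infinite K] : f0 K ∈ secantIdeal (TL K) 3 := by
  classical
  intro Λ hΛ x hx
  obtain ⟨hrk, hfin, hlen⟩ := hΛ
  have hsub : tangentPoints (TL K) Λ ⊆ pointsOn (TL K) Λ := by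
    rintro p ⟨hp, u, v, _, hpu, _, _⟩
    exact ⟨hp, u, hpu⟩
  have hfin' : (tangentPoints (TL K) Λ).Finite := hfin.subset hsub
  -- choose points
  obtain ⟨P, D, hP, hDP, hD, hcard⟩ : ∃ P D : Finset (ℙ K (Fin 10 → K)),
      (∀ p ∈ P, p ∈ pointsOn (TL K) Λ) ∧ D ⊆ P ∧ (∀ p ∈ D, p ∈ tangentPoints (TL K) Λ) ∧
      P.card + D.card = 4 := by
    unfold secLength at hlen
    rw [Set.ncard_eq_toFinset_card _ hfin, Set.ncard_eq_toFinset_card _ hfin'] at hlen
    by_cases h4 : 4 ≤ hfin.toFinset.card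
    · obtain ⟨P, hP, hc⟩ := Finset.exists_subset_card_eq h4
      exact ⟨P, ∅, fun p hp => hfin.mem_toFinset.1 (hP hp), by simp, by simp, by simp [hc]⟩
    · have h5 : 4 - hfin.toFinset.card ≤ hfin'.toFinset.card := by omega
      obtain ⟨D, hD, hc⟩ := Finset.exists_subset_card_eq h5
      refine ⟨hfin.toFinset, D, fun p hp => hfin.mem_toFinset.1 hp, ?_,
        fun p hp => hfin'.mem_toFinset.1 (hD hp), by omega⟩
      intro p hp
      exact hfin.mem_toFinset.2 (hsub (hfin'.mem_toFinset.1 (hD hp)))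
  have hJ : ∀ p : ℙ K (Fin 10 → K), ∃ (j : Fin 3) (i : Fin 4) (y1 y2 : Fin 10 → K), p ∈ D →
      (nd K j i ∈ p.submodule ∧ y1 ∈ TL K (srcv j i) ∧ y2 ∈ TL K (tgtv j i) ∧ y1 + y2 ∈ Λ ∧
        y1 + y2 ∉ p.submodule) := by
    intro p
    by_cases hp : p ∈ D
    · obtain ⟨j, i, hn, y1, h1, y2, h2, h3, h4⟩ := tangent_data (hD p hp)
      exact ⟨j, i, y1, y2, fun _ => ⟨hn, h1, h2, h3, h4⟩⟩
    · exact ⟨0, 0, 0, 0, fun h => absurd h hp⟩
  choose J I Y1 Y2 hJD using hJ
  have hu : ∀ p : ℙ K (Fin 10 → K), ∃ w : Fin 11, (p ∈ P → p.submodule ≤ TL K w) ∧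
      (p ∈ D → w = srcv (J p) (I p)) := by
    intro p
    by_cases hp : p ∈ D
    · refine ⟨srcv (J p) (I p), fun _ => ?_, fun _ => rfl⟩
      have h := (hJD p hp).1
      rw [Projectivization.submodule_eq, Submodule.mem_span_singleton] at h
      obtain ⟨c, hc⟩ := h
      have hc0 : c ≠ 0 := by
        rintro rfl
        rw [zero_smul] at hc
        exact nd_ne _ _ hc.symm
      rw [Projectivization.submodule_eq, Submodule.span_singleton_le_iff_mem]
      have : p.rep = c⁻¹ • nd K (J p) (I p) := by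
        rw [← hc, smul_smul, inv_mul_cancel₀ hc0, one_smul]
      rw [this]
      exact Submodule.smul_mem _ _ (nd_src _ _)
    · by_cases hp' : p ∈ P
      · obtain ⟨_, w, hw⟩ := hP p hp'
        exact ⟨w, fun _ => hw, fun h => absurd h hp⟩
      · exact ⟨0, fun h => absurd h hp', fun h => absurd h hp⟩
  choose u hu1 hu2 using hu
  have key := fun t s => indep hfin P D J I Y1 Y2 u t s (fun p hp => (hP p hp).1) hDP hu1 hu2
    (fun p hp => (hJD p hp).1) (fun p hp => (hJD p hp).2.1) (fun p hp => (hJD p hp).2.2.1)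
    (fun p hp => (hJD p hp).2.2.2.1) (fun p hp => (hJD p hp).2.2.2.2) hcard.le
  -- the family of vectors
  let g : (↥P ⊕ ↥D) → (Fin 10 → K) := Sum.elim (fun p => p.1.rep) (fun p => Y1 p.1 + Y2 p.1)
  have hconv : ∀ c : (↥P ⊕ ↥D) → K, ∃ t s : ℙ K (Fin 10 → K) → K,
      (∀ p (h : p ∈ P), t p = c (Sum.inl ⟨p, h⟩)) ∧ (∀ p (h : p ∈ D), s p = c (Sum.inr ⟨p, h⟩)) ∧
      ∑ i, c i • g i = ∑ p ∈ P, t p • p.rep + ∑ p ∈ D, s p • (Y1 p + Y2 p) := by
    intro c
    refine ⟨fun p => if h : p ∈ P then c (Sum.inl ⟨p, h⟩) else 0,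
      fun p => if h : p ∈ D then c (Sum.inr ⟨p, h⟩) else 0, fun p h => by simp [h],
      fun p h => by simp [h], ?_⟩
    rw [Fintype.sum_sum_type]
    congr 1
    · rw [← Finset.sum_attach P]
      refine Finset.sum_congr rfl fun p _ => ?_
      simp [g]
    · rw [← Finset.sum_attach D]
      refine Finset.sum_congr rfl fun p _ => ?_
      simp [g]
  have hli : LinearIndependent K g := by
    rw [Fintype.linearIndependent_iff]
    intro c hc i
    obtain ⟨t, s, ht, hs, hts⟩ := hconv c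
    rw [hts] at hc
    obtain ⟨k1, k2⟩ := key t s hc
    rcases i with ⟨p, hp⟩ | ⟨p, hp⟩
    · rw [← ht p hp]; exact k1 p hp
    · rw [← hs p hp]; exact k2 p hp
  have hgΛ : Submodule.span K (Set.range g) ≤ Λ := by
    rw [Submodule.span_le]
    rintro _ ⟨i, rfl⟩
    rcases i with ⟨p, hp⟩ | ⟨p, hp⟩
    · exact (hP p hp).1 (rep_mem p)
    · exact (hJD p hp).2.2.2.1
  have hspan : Submodule.span K (Set.range g) = Λ := by
    apply Submodule.eq_of_le_of_finrank_le hgΛ
    rw [finrank_span_eq_card hli, hrk, Fintype.card_sum, Fintype.card_coe, Fintype.card_coe, hcard]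
  rw [← hspan, Submodule.mem_span_range_iff_exists_fun] at hx
  obtain ⟨c, rfl⟩ := hx
  obtain ⟨t, s, _, _, hts⟩ := hconv c
  rw [hts, ← sum_comp P D J I Y1 Y2 u t s]
  refine vanish' _ (comp_mem hu1 (fun p hp => (hJD p hp).2.1) (fun p hp => (hJD p hp).2.2.1))
    (P.image u ∪ D.image (fun p => tgtv (J p) (I p))) ?_ ?_
  · exact (Finset.card_union_le _ _).trans
      ((Nat.add_le_add Finset.card_image_le Finset.card_image_le).trans hcard.le)
  · intro v hv
    exact comp_zero v hv fun p hp => ⟨hDP hp, hu2 p hp⟩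

end Q37.SecGraph
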