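import Pool.Agent.Q37.SecGraph.Defs

/-!
The theta graph with three paths of length four: combinatorics and labelling.
-/

namespace Q37.SecGraph

deriving instance DecidableEq for Label

/-- The twelve edges. Vertices `0`, `1` have degree three; the paths are `0,2,3,4,1`, `0,5,6,7,1`
and `0,8,9,10,1`. -/
def thetaE : Finset (Fin 11 × Fin 11) :=
  {(0,2),(2,3),(3,4),(4,1),(0,5),(5,6),(6,7),(7,1),(0,8),(8,9),(9,10),(10,1)}

/-- The theta graph. -/
def theta : SimpleGraph (Fin 11) where
  Adj a b := (a, b) ∈ thetaE ∨ (b, a) ∈ thetaE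
  symm := ⟨fun _ _ h => h.symm⟩
  loopless := ⟨by decide⟩

instance : DecidableRel theta.Adj := fun _ _ => inferInstanceAs (Decidable (_ ∨ _))

lemma theta_connected : theta.Connected := by
  rw [SimpleGraph.connected_iff_exists_forall_reachable]
  refine ⟨0, fun w => ?_⟩
  have a1 : theta.Reachable 0 2 := SimpleGraph.Adj.reachable (by decide)
  have a2 : theta.Reachable 2 3 := SimpleGraph.Adj.reachable (by decide)
  have a3 : theta.Reachable 3 4 := SimpleGraph.Adj.reachable (by decide)
  have a4 : theta.Reachable 4 1 := SimpleGraph.Adj.reachable (by decide)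
  have b1 : theta.Reachable 0 5 := SimpleGraph.Adj.reachable (by decide)
  have b2 : theta.Reachable 5 6 := SimpleGraph.Adj.reachable (by decide)
  have b3 : theta.Reachable 6 7 := SimpleGraph.Adj.reachable (by decide)
  have c1 : theta.Reachable 0 8 := SimpleGraph.Adj.reachable (by decide)
  have c2 : theta.Reachable 8 9 := SimpleGraph.Adj.reachable (by decide)
  have c3 : theta.Reachable 9 10 := SimpleGraph.Adj.reachable (by decide)
  fin_cases w
  · exact SimpleGraph.Reachable.refl _
  · exact ((a1.trans a2).trans a3).trans a4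
  · exact a1
  · exact a1.trans a2
  · exact (a1.trans a2).trans a3
  · exact b1
  · exact b1.trans b2
  · exact (b1.trans b2).trans b3
  · exact c1
  · exact c1.trans c2
  · exact (c1.trans c2).trans c3

/-- degrees -/
def dg : Fin 11 → ℕ := ![3, 3, 2, 2, 2, 2, 2, 2, 2, 2, 2]

lemma theta_deg : ∀ v, deg theta v = dg v := by
  intro v
  unfold deg
  rw [Set.ncard_eq_toFinset_card']
  revert v
  decide

/-- distance from the vertex `0` -/
def ht : Fin 11 → ℕ := ![0, 4, 1, 2, 3, 1, 2, 3, 1, 2, 3]

lemma ht_adj : ∀ a b, theta.Adj a b → ht b ≤ ht a + 1 ∧ ht a ≤ ht b + 1 := by decide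

lemma ht_walk {a b : Fin 11} (p : theta.Walk a b) : ht b ≤ ht a + p.length ∧
    ht a ≤ ht b + p.length := by
  induction p with
  | nil => simp
  | cons h p ih =>
    have := ht_adj _ _ h
    rw [SimpleGraph.Walk.length_cons]
    omega

lemma theta_triangle : ∀ a b c : Fin 11, theta.Adj a b → theta.Adj b c → theta.Adj a c → False := by
  decide

lemma theta_admissible : IsAdmissible theta where
  conn := theta_connected
  triangleFree := by
    intro s hs
    rw [SimpleGraph.is3Clique_iff] at hs
    obtain ⟨a, b, c, h1, h2, h3, _⟩ := hs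
    exact theta_triangle a b c h1 h3 h2
  deg_le := by
    intro v
    rw [theta_deg]
    revert v; decide
  exists_deg_lt := ⟨2, by rw [theta_deg]; decide⟩
  far := by
    intro u v huv hu hv p _
    rw [theta_deg] at hu hv
    have key : ∀ u v : Fin 11, u ≠ v → dg u = 3 → dg v = 3 → (u = 0 ∧ v = 1) ∨ (u = 1 ∧ v = 0) := by
      decide
    have h := ht_walk p
    rcases key u v huv hu hv with ⟨rfl, rfl⟩ | ⟨rfl, rfl⟩
    · have h1 : ht 1 = 4 := rfl
      have h0 : ht 0 = 0 := rfl
      omega
    · have h1 : ht 1 = 4 := rfl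
      have h0 : ht 0 = 0 := rfl
      omega

/-- The labels. -/
def thetaLab (e : Sym2 (Fin 11)) : Label 10 :=
  if e = s(0, 2) then .single 0 else
  if e = s(0, 5) then .single 1 else
  if e = s(0, 8) then .diff 0 1 else
  if e = s(4, 1) then .single 2 else
  if e = s(7, 1) then .single 3 else
  if e = s(10, 1) then .diff 2 3 else
  if e = s(2, 3) then .single 4 else
  if e = s(3, 4) then .single 5 else
  if e = s(5, 6) then .single 6 else
  if e = s(6, 7) then .single 7 else
  if e = s(8, 9) then .single 8 else .single 9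

lemma theta_edge (e : Sym2 (Fin 11)) :
    e ∈ theta.edgeSet ↔ e ∈ thetaE.image (fun p => s(p.1, p.2)) := by
  revert e
  rw [Sym2.forall]
  intro a b
  rw [SimpleGraph.mem_edgeSet]
  revert a b
  decide

lemma theta_edge_card : theta.edgeSet.ncard = 12 := by
  have : theta.edgeSet = (thetaE.image (fun p => s(p.1, p.2)) : Finset (Sym2 (Fin 11))) := by
    ext e; rw [theta_edge]; rfl
  rw [this, Set.ncard_coe_finset]
  decide

lemma theta_genus : Q37.GraphCurve.genus theta = 2 := by
  unfold Q37.GraphCurve.genus
  rw [theta_edge_card, Nat.card_eq_fintype_card, Fintype.card_fin]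
  norm_num

lemma theta_tilde (e : Sym2 (Fin 11)) : IsTildeEdge theta e ↔ e ∈ theta.edgeSet := by
  constructor
  · rintro (h | ⟨v, hv, _⟩)
    · exact h
    · rw [theta_deg] at hv
      have key : ∀ v : Fin 11, dg v ≠ 1 := by decide
      exact absurd hv (key v)
  · exact Or.inl

lemma theta_labelling : IsLabelling theta thetaLab where
  dim := by
    rw [theta_genus, Nat.card_eq_fintype_card, Fintype.card_fin]; norm_num
  deg3 := by
    intro v hv
    rw [theta_deg] at hv
    have key : ∀ v : Fin 11, dg v = 3 → v = 0 ∨ v = 1 := by decide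
    rcases key v hv with rfl | rfl
    · refine ⟨2, 5, 8, 0, 1, by decide, ?_, by decide, by decide, by decide⟩
      ext w
      simp only [SimpleGraph.mem_neighborSet, Set.mem_insert_iff, Set.mem_singleton_iff]
      revert w; decide
    · refine ⟨4, 7, 10, 2, 3, by decide, ?_, by decide, by decide, by decide⟩
      ext w
      simp only [SimpleGraph.mem_neighborSet, Set.mem_insert_iff, Set.mem_singleton_iff]
      revert w; decide
  rest := by
    intro e he h
    rw [theta_tilde, theta_edge] at he
    rw [Finset.mem_image] at he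
    obtain ⟨⟨a, b⟩, hab, rfl⟩ := he
    have ha := h a (by simp)
    have hb := h b (by simp)
    rw [theta_deg] at ha hb
    simp only at *
    have key : ∀ p ∈ thetaE, dg p.1 ≠ 3 → dg p.2 ≠ 3 →
        ∃ i : Fin 10, thetaLab s(p.1, p.2) = .single i := by decide +kernel
    exact key (a, b) hab ha hb
  unused := by
    intro e f i he hf h1 h2
    rw [theta_tilde, theta_edge, Finset.mem_image] at he hf
    obtain ⟨p, hp, rfl⟩ := he
    obtain ⟨q, hq, rfl⟩ := hf
    have key : ∀ p ∈ thetaE, ∀ q ∈ thetaE, ∀ i : Fin 10, thetaLab s(p.1, p.2) = .single i →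
        thetaLab s(q.1, q.2) = .single i → p = q := by decide +kernel
    rw [key p hp q hq i h1 h2]

end Q37.SecGraph
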