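import Pool.Agent.Q37.SecGraph.Curve

/-!
The polynomial `f0` vanishes on every sum of four of the lines.
-/

open MvPolynomial Module

namespace Q37.SecGraph

universe u

variable (K : Type u) [Field K]

/-- The polynomial `x4 x5 x6 x7 x8 x9 (x0 x3 - x1 x2)`. -/
noncomputable def f0 : MvPolynomial (Fin 10) K :=
  X 4 * X 5 * X 6 * X 7 * X 8 * X 9 * (X 0 * X 3 - X 1 * X 2)

variable {K}

lemma comb : ∀ T : Finset (Fin 11), T.card ≤ 4 → (2 ∈ T ∨ 3 ∈ T) → (3 ∈ T ∨ 4 ∈ T) →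
    (5 ∈ T ∨ 6 ∈ T) → (6 ∈ T ∨ 7 ∈ T) → (8 ∈ T ∨ 9 ∈ T) → (9 ∈ T ∨ 10 ∈ T) →
    (0 ∉ T ∧ 2 ∉ T ∧ 5 ∉ T ∧ 8 ∉ T) ∨ (1 ∉ T ∧ 4 ∉ T ∧ 7 ∉ T ∧ 10 ∉ T) ∨
      T = {2, 4, 6, 9} ∨ T = {3, 5, 7, 9} ∨ T = {3, 6, 8, 10} := by
  decide +kernel

lemma eval_f0 (x : Fin 10 → K) :
    eval x (f0 K) = x 4 * x 5 * x 6 * x 7 * x 8 * x 9 * (x 0 * x 3 - x 1 * x 2) := by
  simp [f0]

lemma vanish (a b : Fin 11 → K) (T : Finset (Fin 11)) (hT : T.card ≤ 4)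
    (h : ∀ v, v ∉ T → a v = 0 ∧ b v = 0) :
    eval (∑ v, (a v • tA K v + b v • tB K v)) (f0 K) = 0 := by
  rw [coords, eval_f0]
  show (b 2 + a 3) * (b 3 + a 4) * (b 5 + a 6) * (b 6 + a 7) * (b 8 + a 9) * (b 9 + a 10) *
    ((a 0 + a 2 + a 8) * (b 1 + b 7 + b 10) - (b 0 + a 5 + a 8) * (a 1 + b 4 + b 10)) = 0
  by_contra hne
  have h1 : b 2 + a 3 ≠ 0 := fun h0 => hne (by rw [h0]; ring)
  have h2 : b 3 + a 4 ≠ 0 := fun h0 => hne (by rw [h0]; ring)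
  have h3 : b 5 + a 6 ≠ 0 := fun h0 => hne (by rw [h0]; ring)
  have h4 : b 6 + a 7 ≠ 0 := fun h0 => hne (by rw [h0]; ring)
  have h5 : b 8 + a 9 ≠ 0 := fun h0 => hne (by rw [h0]; ring)
  have h6 : b 9 + a 10 ≠ 0 := fun h0 => hne (by rw [h0]; ring)
  have key : ∀ u v : Fin 11, b u + a v ≠ 0 → u ∈ T ∨ v ∈ T := by
    intro u v huv
    by_contra hc
    push Not at hc
    exact huv (by rw [(h u hc.1).2, (h v hc.2).1, add_zero])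
  rcases comb T hT (key _ _ h1) (key _ _ h2) (key _ _ h3) (key _ _ h4) (key _ _ h5) (key _ _ h6)
    with ⟨g1, g2, g3, g4⟩ | ⟨g1, g2, g3, g4⟩ | rfl | rfl | rfl
  · apply hne
    rw [(h _ g1).1, (h _ g1).2, (h _ g2).1, (h _ g3).1, (h _ g4).1]; ring
  · apply hne
    rw [(h _ g1).1, (h _ g1).2, (h _ g2).2, (h _ g3).2, (h _ g4).2]; ring
  · apply hne
    rw [(h 0 (by decide)).2, (h 5 (by decide)).1, (h 8 (by decide)).1,
      (h 1 (by decide)).2, (h 7 (by decide)).2, (h 10 (by decide)).2]; ring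
  · apply hne
    rw [(h 0 (by decide)).1, (h 2 (by decide)).1, (h 8 (by decide)).1,
      (h 1 (by decide)).1, (h 4 (by decide)).2, (h 10 (by decide)).2]; ring
  · apply hne
    rw [(h 0 (by decide)).1, (h 0 (by decide)).2, (h 2 (by decide)).1, (h 5 (by decide)).1,
      (h 1 (by decide)).1, (h 1 (by decide)).2, (h 4 (by decide)).2, (h 7 (by decide)).2]; ring

end Q37.SecGraph
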